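import Pool.Agent.H18.HIT.Asm

/-!
# Rational self-maps of projective space: homogeneous lifts
-/

open MvPolynomial
open Pool.Agent.H12.ZD (pmap v O Res DenseOrbit NoInv)

namespace Pool.Agent.H18.HIT

section

variable {N : ℕ} {k : Type} [Field k]

/-- homogeneous polynomials at multiples of a point -/
theorem eval_smul_of_hom {q : Po N k} {t : ℕ} (hq : q.IsHomogeneous t) (a : k) (x : Fin N → k) :
    eval (fun i => a * x i) q = a ^ t * eval x q := by
  rw [eval_eq', eval_eq', Finset.mul_sum]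
  apply Finset.sum_congr rfl
  intro m hm
  have h1 : ∏ i, (a * x i) ^ m i = a ^ t * ∏ i, x i ^ m i := by
    rw [Finset.prod_congr rfl fun i _ => mul_pow a (x i) (m i), Finset.prod_mul_distrib,
      Finset.prod_pow_eq_pow_sum]
    congr 2
    have h2 := hq (mem_support_iff.mp hm)
    rw [Finsupp.weight_apply, Finsupp.sum_fintype _ _ (fun i => by simp)] at h2
    simpa using h2
  rw [h1]
  ring

theorem pmap_smul_of_hom {F : Tup N k} {d : ℕ} (hF : ∀ i, (F i).IsHomogeneous d) (a : k)
    (x : Fin N → k) : pmap F (fun i => a * x i) = fun i => a ^ d * pmap F x i := by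
  funext i
  exact eval_smul_of_hom (hF i) a x

theorem aeval_hom {F : Tup N k} {d t : ℕ} (hF : ∀ i, (F i).IsHomogeneous d) {q : Po N k}
    (hq : q.IsHomogeneous t) : (aeval F q).IsHomogeneous (d * t) := by
  have := IsHomogeneous.aeval hq F hF
  exact this

theorem it_hom {F : Tup N k} {d : ℕ} (hF : ∀ i, (F i).IsHomogeneous d) (n : ℕ) (i : Fin N) :
    (it F n i).IsHomogeneous (d ^ n) := by
  induction n generalizing i with
  | zero =>
    rw [pow_zero]
    exact isHomogeneous_X k i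
  | succ n ih =>
    rw [it_succ', pow_succ, mul_comm]
    exact aeval_hom hF (ih i)

theorem pmap_it_smul {F : Tup N k} {d : ℕ} (hF : ∀ i, (F i).IsHomogeneous d) (n : ℕ) (a : k)
    (x : Fin N → k) : (pmap F)^[n] (fun i => a * x i) = fun i => a ^ (d ^ n) * (pmap F)^[n] x i := by
  rw [← pmap_it, ← pmap_it]
  exact pmap_smul_of_hom (it_hom hF n) a x

theorem deg_of_hom {F : Tup N k} {d : ℕ} (hF : ∀ i, (F i).IsHomogeneous d) : deg F ≤ d :=
  deg_le fun i => (hF i).totalDegree_le

/-- substitution of multiples -/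
theorem aeval_mul_of_hom {q : Po N k} {t : ℕ} (hq : q.IsHomogeneous t) (h : Po N k)
    (G : Tup N k) : aeval (fun i => h * G i) q = h ^ t * aeval G q := by
  rw [aeval_def, aeval_def, eval₂_eq', eval₂_eq', Finset.mul_sum]
  apply Finset.sum_congr rfl
  intro m hm
  have h1 : ∏ i, (h * G i) ^ m i = h ^ t * ∏ i, G i ^ m i := by
    rw [Finset.prod_congr rfl fun i _ => mul_pow h (G i) (m i), Finset.prod_mul_distrib,
      Finset.prod_pow_eq_pow_sum]
    congr 2
    have h2 := hq (mem_support_iff.mp hm)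
    rw [Finsupp.weight_apply, Finsupp.sum_fintype _ _ (fun i => by simp)] at h2
    simpa using h2
  rw [h1]
  ring

end

section

variable {N : ℕ} {k : Type} [Field k] [IsAlgClosed k]

/-- the fibres of a reduced representative of an iterate -/
theorem pcov_reduced (hELM : T_ELM) {F G : Tup (N + 1) k} {h : Po (N + 1) k} {d δ n M e' : ℕ}
    (hF : ∀ i, (F i).IsHomogeneous d) (hG : ∀ i, (G i).IsHomogeneous δ)
    (hit : ∀ i, it F n i = h * G i) (hδ : 1 ≤ δ) (hd : 1 ≤ d)
    (hinj : Function.Injective (aeval F : Po (N + 1) k →ₐ[k] Po (N + 1) k))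
    (hcov : Cov (it F n) M) (hM : d ^ n * e' ≤ M) : PCov G e' := by
  classical
  obtain ⟨c, hc, hcov⟩ := hcov
  obtain ⟨c₀, hc₀, hdvd⟩ := hELM (N + 1) k (it F n) (aeval_it_injective hinj n) (X 0)
    (X_ne_zero 0)
  refine ⟨c * c₀ * X 0, mul_ne_zero (mul_ne_zero hc hc₀) (X_ne_zero 0), fun y hy => ?_⟩
  rw [map_mul, map_mul, eval_X] at hy
  have hy0 : y 0 ≠ 0 := right_ne_zero_of_mul hy
  have hyc₀ : eval y c₀ ≠ 0 := right_ne_zero_of_mul (left_ne_zero_of_mul hy)
  obtain ⟨S, hS, hSy⟩ := hcov y (left_ne_zero_of_mul (left_ne_zero_of_mul hy))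
  have hx0 : ∀ x ∈ S, x 0 ≠ 0 := by
    intro x hx h0
    obtain ⟨w, hw⟩ := hdvd
    apply hyc₀
    rw [← hSy x hx, ← eval_aeval, hw, map_mul, eval_X, h0, zero_mul]
  -- normalisation
  set ν : (Fin (N + 1) → k) → (Fin (N + 1) → k) := fun x i => (x 0)⁻¹ * x i with hν
  have hxν : ∀ x ∈ S, x = fun i => x 0 * ν x i := by
    intro x hx
    funext i
    rw [hν]
    simp only
    rw [← mul_assoc, mul_inv_cancel₀ (hx0 x hx), one_mul]
  have hν0 : ∀ x ∈ S, ν x 0 = 1 := by
    intro x hx
    rw [hν]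
    exact inv_mul_cancel₀ (hx0 x hx)
  have hFν : ∀ x ∈ S, ∀ i, x 0 ^ (d ^ n) * pmap (it F n) (ν x) i = y i := by
    intro x hx i
    have h1 := pmap_smul_of_hom (it_hom hF n) (x 0) (ν x)
    rw [← hxν x hx, hSy x hx] at h1
    exact (congrFun h1 i).symm
  have hcard : M ≤ d ^ n * (S.image ν).card := by
    rw [← hS]
    apply Finset.card_le_mul_card_image
    intro u _
    have hinj1 : Set.InjOn (fun x : Fin (N + 1) → k => x 0) (S.filter fun x => ν x = u) := by
      intro x hx x' hx' hxx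
      rw [Finset.mem_coe, Finset.mem_filter] at hx hx'
      rw [hxν x hx.1, hxν x' hx'.1, hx.2, hx'.2]
      funext i
      have : x 0 = x' 0 := hxx
      rw [this]
    rw [← Finset.card_image_of_injOn hinj1]
    have hsub : (S.filter fun x => ν x = u).image (fun x : Fin (N + 1) → k => x 0) ⊆
        (Polynomial.nthRoots (d ^ n) (y 0 / pmap (it F n) u 0)).toFinset := by
      intro a ha
      rw [Finset.mem_image] at ha
      obtain ⟨x, hx, rfl⟩ := ha
      rw [Finset.mem_filter] at hx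
      have h1 := hFν x hx.1 0
      rw [hx.2] at h1
      have h2 : pmap (it F n) u 0 ≠ 0 := by
        intro h0
        rw [h0, mul_zero] at h1
        exact hy0 h1.symm
      rw [Multiset.mem_toFinset, Polynomial.mem_nthRoots (pow_pos hd n), eq_div_iff h2]
      exact h1
    refine (Finset.card_le_card hsub).trans ((Multiset.toFinset_card_le _).trans ?_)
    exact Polynomial.card_nthRoots _ _
  have he' : e' ≤ (S.image ν).card :=
    Nat.le_of_mul_le_mul_left (hM.trans hcard) (pow_pos hd n)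
  -- scaling
  have hscale : ∀ u ∈ S.image ν, ∃ a : k, a ≠ 0 ∧ pmap G (fun i => a * u i) = y := by
    intro u hu
    rw [Finset.mem_image] at hu
    obtain ⟨x, hx, rfl⟩ := hu
    have h1 := hFν x hx
    have h2 : ∀ i, x 0 ^ (d ^ n) * eval (ν x) h * pmap G (ν x) i = y i := by
      intro i
      rw [← h1 i, mul_assoc]
      congr 1
      rw [pmap, pmap, hit i, map_mul]
    have h3 : x 0 ^ (d ^ n) * eval (ν x) h ≠ 0 := by
      intro h0
      have := h2 0
      rw [h0, zero_mul] at this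
      exact hy0 this.symm
    obtain ⟨a, ha⟩ := IsAlgClosed.exists_pow_nat_eq (x 0 ^ (d ^ n) * eval (ν x) h)
      (show 0 < δ by omega)
    refine ⟨a, ?_, ?_⟩
    · rintro rfl
      rw [zero_pow (by omega)] at ha
      exact h3 ha.symm
    · rw [pmap_smul_of_hom hG]
      funext i
      rw [ha]
      exact h2 i
  choose! a ha using hscale
  obtain ⟨T, hT, hTc⟩ := Finset.exists_subset_card_eq he'
  have hT0 : ∀ u ∈ T, u 0 = 1 := by
    intro u hu
    obtain ⟨x, hx, rfl⟩ := Finset.mem_image.mp (hT hu)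
    exact hν0 x hx
  have hprop : ∀ u ∈ T, ∀ u' ∈ T, ∀ t : k, (∀ i, a u' * u' i = t * (a u * u i)) → u' = u := by
    intro u hu u' hu' t ht
    have h0 := ht 0
    rw [hT0 u hu, hT0 u' hu', mul_one, mul_one] at h0
    funext i
    have h1 := ht i
    rw [h0, mul_assoc] at h1
    have h2 : t ≠ 0 := by
      rintro rfl
      rw [zero_mul] at h0
      exact (ha u' (hT hu')).1 h0
    exact mul_left_cancel₀ (ha u (hT hu)).1 (mul_left_cancel₀ h2 h1)
  refine ⟨T.image fun u i => a u * u i, ?_, ?_, ?_⟩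
  · rw [Finset.card_image_of_injOn, hTc]
    intro u hu u' hu' huu
    refine (hprop u hu u' hu' 1 fun i => ?_).symm
    rw [one_mul]
    exact (congrFun huu i).symm
  · intro x hx
    obtain ⟨u, hu, rfl⟩ := Finset.mem_image.mp hx
    exact (ha u (hT hu)).2
  · intro x hx x' hx' t ht
    obtain ⟨u, hu, rfl⟩ := Finset.mem_image.mp hx
    obtain ⟨u', hu', rfl⟩ := Finset.mem_image.mp hx'
    rw [hprop u hu u' hu' t ht]

omit [IsAlgClosed k] in
/-- the degree of a reduced representative is positive -/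
theorem one_le_of_reduced {F G : Tup (N + 1) k} {h : Po (N + 1) k} {δ n : ℕ} (hN : 1 ≤ N)
    (hG : ∀ i, (G i).IsHomogeneous δ) (hit : ∀ i, it F n i = h * G i)
    (hinj : Function.Injective (aeval F : Po (N + 1) k →ₐ[k] Po (N + 1) k)) : 1 ≤ δ := by
  by_contra hδ
  have hδ0 : δ = 0 := by omega
  subst hδ0
  have hinj' := aeval_it_injective hinj n
  have hC : ∀ i, ∃ a : k, G i = C a := by
    intro i
    exact ⟨_, totalDegree_eq_zero_iff_eq_C.mp (Nat.le_zero.mp (hG i).totalDegree_le)⟩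
  choose a ha using hC
  have h01 : (0 : Fin (N + 1)) ≠ 1 := by
    intro h
    have := congrArg Fin.val h
    rw [Fin.val_zero, Fin.val_one'] at this
    rw [Nat.mod_eq_of_lt (by omega)] at this
    omega
  have h1 : aeval (it F n) (C (a 1) * X 0 - C (a 0) * X 1 : Po (N + 1) k) = 0 := by
    rw [map_sub, map_mul, map_mul, aeval_X, aeval_X, hit, hit, ha 0, ha 1]
    have h2 : ∀ b : k, aeval (it F n) (C b : Po (N + 1) k) = C b := fun b => by
      rw [aeval_C, algebraMap_eq]
    rw [h2, h2]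
    ring
  have h2 : (C (a 1) * X 0 - C (a 0) * X 1 : Po (N + 1) k) = 0 := hinj' (by rw [h1, map_zero])
  have h3 : a 1 = 0 := by
    have := congrArg (coeff (Finsupp.single 0 1)) h2
    rw [coeff_sub, coeff_C_mul, coeff_C_mul, coeff_X, coeff_X, coeff_zero, if_pos rfl, if_neg
      (fun h => h01 ((Finsupp.single_left_inj one_ne_zero).mp h.symm)), mul_one,
      mul_zero, sub_zero] at this
    exact this
  have h4 : aeval (it F n) (X 1 : Po (N + 1) k) = 0 := by
    rw [aeval_X, hit, ha, h3, C_0, mul_zero]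
  exact X_ne_zero (1 : Fin (N + 1)) (hinj' (by rw [h4, map_zero]))

end

section

variable {N : ℕ} {k : Type} [Field k]

/-- evaluation of linear forms is additive -/
theorem eval_add_of_hom_one {q : Po N k} (hq : q.IsHomogeneous 1) (x y : Fin N → k) :
    eval (fun i => x i + y i) q = eval x q + eval y q := by
  have h1 : ∀ z : Fin N → k, eval z q = ∑ m ∈ q.support, coeff m q * ∑ i, m i * z i := by
    intro z
    rw [eval_eq']
    apply Finset.sum_congr rfl
    intro m hm
    congr 1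
    have h2 := hq (mem_support_iff.mp hm)
    rw [Finsupp.weight_apply, Finsupp.sum_fintype _ _ (fun i => by simp)] at h2
    simp only [Pi.one_apply, smul_eq_mul, mul_one] at h2
    obtain ⟨i, hi⟩ : ∃ i, m i ≠ 0 := by
      by_contra hne
      push Not at hne
      rw [Finset.sum_congr rfl fun i _ => hne i, Finset.sum_const_zero] at h2
      exact zero_ne_one h2
    have h3 : ∀ j, j ≠ i → m j = 0 := by
      intro j hj
      by_contra hj0
      have h4 : m i + m j ≤ ∑ l, m l := by
        rw [← Finset.sum_pair hj.symm]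
        exact Finset.sum_le_univ_sum_of_nonneg (fun _ => Nat.zero_le _)
      omega
    have h5 : m i = 1 := by
      rw [Finset.sum_eq_single i (fun j _ hj => h3 j hj) (fun h => absurd (Finset.mem_univ i) h)]
        at h2
      exact h2
    rw [Finset.prod_eq_single i (fun j _ hj => by rw [h3 j hj, pow_zero])
      (fun h => absurd (Finset.mem_univ i) h),
      Finset.sum_eq_single i (fun j _ hj => by rw [h3 j hj, Nat.cast_zero, zero_mul])
      (fun h => absurd (Finset.mem_univ i) h), h5, pow_one, Nat.cast_one, one_mul]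
  rw [h1, h1, h1, ← Finset.sum_add_distrib]
  apply Finset.sum_congr rfl
  intro m _
  rw [← mul_add, ← Finset.sum_add_distrib]
  congr 1
  apply Finset.sum_congr rfl
  intro i _
  ring

/-- a dominant linear map has degree one -/
theorem not_cov_linear [Infinite k] {G : Tup N k} (hG : ∀ i, (G i).IsHomogeneous 1) {e : ℕ}
    (he : 2 ≤ e) : ¬ Cov G e := by
  intro hcov
  have hinj := hcov.injective (show 1 ≤ e by omega)
  set L : (Fin N → k) →ₗ[k] (Fin N → k) :=
    { toFun := pmap G
      map_add' := fun x y => by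
        funext i
        exact eval_add_of_hom_one (hG i) x y
      map_smul' := fun a x => by
        have := pmap_smul_of_hom hG a x
        rw [pow_one] at this
        exact this } with hL
  have hLinj : Function.Injective L := by
    rw [LinearMap.injective_iff_surjective]
    by_contra hsurj
    have hlt : LinearMap.range L < ⊤ := lt_top_iff_ne_top.mpr fun h =>
      hsurj (LinearMap.range_eq_top.mp h)
    obtain ⟨φ, hφ0, hφ⟩ := Submodule.exists_le_ker_of_lt_top _ hlt
    set q : Po N k := ∑ i, C (φ (Pi.single i 1)) * X i with hq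
    have hqe : ∀ y : Fin N → k, eval y q = φ y := by
      intro y
      rw [hq, map_sum]
      conv_rhs => rw [LinearMap.pi_apply_eq_sum_univ φ y]
      apply Finset.sum_congr rfl
      intro i _
      rw [map_mul, eval_C, eval_X, smul_eq_mul, mul_comm]
      congr 2
      funext j
      simp [Pi.single_apply, eq_comm]
    have h1 : aeval G q = 0 := by
      apply MvPolynomial.funext
      intro x
      rw [eval_aeval, hqe, map_zero]
      exact hφ ⟨x, rfl⟩
    have h2 : q = 0 := hinj (by rw [h1, map_zero])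
    apply hφ0
    ext i
    have h3 := hqe (Pi.single i 1)
    rw [h2, map_zero] at h3
    simpa using h3.symm
  obtain ⟨c, hc, hcov⟩ := hcov
  obtain ⟨y, hy⟩ := exists_eval_ne_zero hc
  obtain ⟨S, hS, hSy⟩ := hcov y hy
  have h1 : S.card ≤ 1 := by
    rw [Finset.card_le_one]
    intro x hx x' hx'
    apply hLinj
    change pmap G x = pmap G x'
    rw [hSy x hx, hSy x' hx']
  omega

end

section

variable {N : ℕ} {k : Type} [Field k]

/-- the orbit under a reduced representative of an iterate -/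
theorem orbit_reduced {F G : Tup (N + 1) k} {h b : Po (N + 1) k} {d n t : ℕ} (hn : 1 ≤ n)
    (hF : ∀ i, (F i).IsHomogeneous d) (hit : ∀ i, it F n i = h * G i)
    (hb : b.IsHomogeneous t) {x : Fin (N + 1) → k}
    (hx : ∀ m, eval ((pmap G)^[m] x) (h * bprod F b n) ≠ 0) (hdense : DenseOrbit G x) :
    (∀ m, eval ((pmap F)^[m] x) b ≠ 0) ∧
      ∀ (s : ℕ) (q : Po (N + 1) k), q.IsHomogeneous s →
        (∀ m, eval ((pmap F)^[m] x) q = 0) → q = 0 := by
  have hc : ∀ m, ∃ c : k, c ≠ 0 ∧ (pmap F)^[n * m] x = fun i => c * (pmap G)^[m] x i := by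
    intro m
    induction m with
    | zero => exact ⟨1, one_ne_zero, funext fun i => by
        rw [Nat.mul_zero, Function.iterate_zero, Function.iterate_zero, one_mul]⟩
    | succ m ih =>
      obtain ⟨c, hc, hcx⟩ := ih
      have h1 := hx m
      rw [map_mul] at h1
      refine ⟨c ^ (d ^ n) * eval ((pmap G)^[m] x) h, mul_ne_zero (pow_ne_zero _ hc)
        (left_ne_zero_of_mul h1), ?_⟩
      rw [Nat.mul_succ, Nat.add_comm (n * m) n, Function.iterate_add_apply, hcx,
        pmap_it_smul hF, ← pmap_it]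
      funext i
      rw [Function.iterate_succ_apply', mul_assoc]
      congr 1
      rw [pmap, pmap, hit i, map_mul]
  constructor
  · intro m
    obtain ⟨c, hc, hcx⟩ := hc (m / n)
    have h1 := hx (m / n)
    rw [map_mul, bprod, map_prod] at h1
    have h2 := right_ne_zero_of_mul h1
    rw [Finset.prod_ne_zero_iff] at h2
    have h3 := h2 (m % n) (Finset.mem_range.mpr (Nat.mod_lt m (by omega)))
    rw [eval_aeval, pmap_it] at h3
    rw [← Nat.mod_add_div m n, Function.iterate_add_apply, hcx, pmap_it_smul hF,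
      eval_smul_of_hom hb]
    exact mul_ne_zero (pow_ne_zero _ (pow_ne_zero _ hc)) h3
  · intro s q hq hqx
    apply hdense
    intro m
    obtain ⟨c, hc, hcx⟩ := hc m
    have h1 := hqx (n * m)
    rw [hcx, eval_smul_of_hom hq] at h1
    exact (mul_eq_zero.mp h1).resolve_left (pow_ne_zero _ hc)

end

/-- Theorem A on projective space -/
theorem thmAP (hA : T_A) (hCNT : T_CNT) (hELM : T_ELM) (hPEL : T_PEL) (hCVI : T_CVI)
    (hCVP : T_CVP) (hCVC : T_CVC) (hSPD : T_SPD) (hPCV : T_PCV) (N : ℕ) (k : Type) [Field k]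
    [IsAlgClosed k] [CharZero k] (F G : Tup (N + 1) k) (h b : Po (N + 1) k) (d e n δ t : ℕ)
    (hN : 1 ≤ N) (hn : 1 ≤ n) (hd : 1 ≤ d) (hF : ∀ i, (F i).IsHomogeneous d) (hcov : PCov F e)
    (hG : ∀ i, (G i).IsHomogeneous δ) (hit : ∀ i, it F n i = h * G i)
    (hdeg : δ ^ (N - 1) < e ^ n) (hb : b.IsHomogeneous t) (hb0 : b ≠ 0) :
    ∃ x : Fin (N + 1) → k, (∀ m, eval ((pmap F)^[m] x) b ≠ 0) ∧
      (∀ m, (pmap F)^[m] x ≠ 0) ∧
      ∀ (s : ℕ) (q : Po (N + 1) k), q.IsHomogeneous s →
        (∀ m, eval ((pmap F)^[m] x) q = 0) → q = 0 := by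
  have : Infinite k := IsAlgClosed.instInfinite
  have he : 1 ≤ e := by
    rcases Nat.eq_zero_or_pos e with h' | h'
    · rw [h', zero_pow (by omega)] at hdeg
      exact absurd hdeg (Nat.not_lt_zero _)
    · exact h'
  have hcF := hPCV (N + 1) k F d e (by omega) hd hF hcov
  have hinj := hcF.injective (Nat.mul_pos hd he)
  have hcI := hCNT (N + 1) k F (d * e) n hinj hcF
  have hδ := one_le_of_reduced hN hG hit hinj
  have hpG : PCov G (e ^ n) :=
    pcov_reduced hELM hF hG hit hδ hd hinj hcI (by rw [mul_pow])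
  have hcG := hPCV (N + 1) k G δ (e ^ n) (by omega) hδ hG hpG
  have h0 : h ≠ 0 := by
    rintro rfl
    have h1 : aeval (it F n) (X 0 : Po (N + 1) k) = 0 := by rw [aeval_X, hit, zero_mul]
    exact X_ne_zero (0 : Fin (N + 1)) (aeval_it_injective hinj n (by rw [h1, map_zero]))
  have hb1 : (b * X 0 : Po (N + 1) k).IsHomogeneous (t + 1) := hb.mul (isHomogeneous_X k 0)
  have hb10 : (b * X 0 : Po (N + 1) k) ≠ 0 := mul_ne_zero hb0 (X_ne_zero 0)
  have hlt : deg (it G 1) ^ (N + 1 - 1) < (δ * e ^ n) ^ 1 := by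
    rw [it_one, pow_one, Nat.add_sub_cancel]
    calc deg G ^ N ≤ δ ^ N := Nat.pow_le_pow_left (deg_of_hom hG) N
      _ = δ * δ ^ (N - 1) := by rw [← pow_succ', Nat.sub_add_cancel hN]
      _ < δ * e ^ n := Nat.mul_lt_mul_of_pos_left hdeg hδ
  obtain ⟨x, hx, hdense⟩ := thmAK hA hCNT hPEL hCVI hCVP hCVC hSPD (N + 1) k G
    (h * bprod F (b * X 0) n) (δ * e ^ n) 1 le_rfl hcG hlt
    (mul_ne_zero h0 (bprod_ne_zero hinj hb10 n))
  obtain ⟨h1, h2⟩ := orbit_reduced hn hF hit hb1 hx hdense
  refine ⟨x, fun m => ?_, fun m hm => ?_, h2⟩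
  · have := h1 m
    rw [map_mul] at this
    exact left_ne_zero_of_mul this
  · have := h1 m
    rw [map_mul, eval_X, hm] at this
    exact right_ne_zero_of_mul this rfl

/-- every endomorphism of projective space of degree at least two -/
theorem thmEnd (hA : T_A) (hCNT : T_CNT) (hPEL : T_PEL) (hCVI : T_CVI)
    (hCVP : T_CVP) (hCVC : T_CVC) (hSPD : T_SPD) (hREG : T_REG) (N : ℕ) (k : Type) [Field k]
    [IsAlgClosed k] [CharZero k] (F : Tup (N + 1) k) (b : Po (N + 1) k) (d : ℕ)
    (hd : 2 ≤ d) (hF : ∀ i, (F i).IsHomogeneous d)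
    (hF0 : ∀ x : Fin (N + 1) → k, (∀ i, eval x (F i) = 0) → x = 0) (hb0 : b ≠ 0) :
    ∃ x : Fin (N + 1) → k, (∀ m, eval ((pmap F)^[m] x) b ≠ 0) ∧ DenseOrbit F x := by
  have hcov : Cov F (d ^ (N + 1)) := by
    apply hREG (N + 1) k F d (by omega) fun i => (hF i).totalDegree_le
    intro x hx
    apply hF0
    intro i
    rw [← hx i, homogeneousComponent_of_mem (hF i), if_pos rfl]
  apply thmAK hA hCNT hPEL hCVI hCVP hCVC hSPD (N + 1) k F b (d ^ (N + 1)) 1 le_rfl hcov ?_ hb0
  rw [it_one, pow_one, Nat.add_sub_cancel]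
  exact lt_of_le_of_lt (Nat.pow_le_pow_left (deg_of_hom hF) N)
    (Nat.pow_lt_pow_right (by omega) (Nat.lt_succ_self N))

/-- Theorem B on projective space -/
theorem thmBP (hB : T_B) (hCNT : T_CNT) (hELM : T_ELM) (hPCV : T_PCV) (hPNI : T_PNI)
    (hNIT : T_NIT) (N : ℕ) (F G : Tup (N + 1) Qb) (h b : Po (N + 1) Qb) (d e n δ t : ℕ)
    (hN : 1 ≤ N) (hn : 1 ≤ n) (hd : 1 ≤ d) (hF : ∀ i, (F i).IsHomogeneous d) (hcov : PCov F e)
    (hG : ∀ i, (G i).IsHomogeneous δ) (hit : ∀ i, it F n i = h * G i)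
    (hdeg : δ ^ (N - 2) < e ^ n)
    (hinv : ∀ (m : ℕ) (P Q : Po (N + 1) Qb), P.IsHomogeneous m → Q.IsHomogeneous m → Q ≠ 0 →
      aeval F P * Q = aeval F Q * P → ∃ c : Qb, P = C c * Q)
    (hb : b.IsHomogeneous t) (hb0 : b ≠ 0) :
    ∃ x : Fin (N + 1) → Qb, (∀ m, eval ((pmap F)^[m] x) b ≠ 0) ∧
      (∀ m, (pmap F)^[m] x ≠ 0) ∧
      ∀ (s : ℕ) (q : Po (N + 1) Qb), q.IsHomogeneous s →
        (∀ m, eval ((pmap F)^[m] x) q = 0) → q = 0 := by
  have he : 1 ≤ e := by
    rcases Nat.eq_zero_or_pos e with h' | h'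
    · rw [h', zero_pow (by omega)] at hdeg
      exact absurd hdeg (Nat.not_lt_zero _)
    · exact h'
  have hcF := hPCV (N + 1) Qb F d e (by omega) hd hF hcov
  have hinj := hcF.injective (Nat.mul_pos hd he)
  have hcI := hCNT (N + 1) Qb F (d * e) n hinj hcF
  have hδ := one_le_of_reduced hN hG hit hinj
  have hpG : PCov G (e ^ n) :=
    pcov_reduced hELM hF hG hit hδ hd hinj hcI (by rw [mul_pow])
  have hcG := hPCV (N + 1) Qb G δ (e ^ n) (by omega) hδ hG hpG
  have h0 : h ≠ 0 := by
    rintro rfl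
    have h1 : aeval (it F n) (X 0 : Po (N + 1) Qb) = 0 := by rw [aeval_X, hit, zero_mul]
    exact X_ne_zero (0 : Fin (N + 1)) (aeval_it_injective hinj n (by rw [h1, map_zero]))
  have hb1 : (b * X 0 : Po (N + 1) Qb).IsHomogeneous (t + 1) := hb.mul (isHomogeneous_X Qb 0)
  have hb10 : (b * X 0 : Po (N + 1) Qb) ≠ 0 := mul_ne_zero hb0 (X_ne_zero 0)
  -- the degree is at least two
  have hen : 2 ≤ e ^ n := by
    have : 1 ≤ δ ^ (N - 2) := Nat.one_le_pow _ _ hδ
    omega
  have he2 : 2 ≤ e := by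
    by_contra h'
    have : e = 1 := by omega
    rw [this, one_pow] at hen
    omega
  have hd2 : 2 ≤ d := by
    by_contra h'
    have hd1 : d = 1 := by omega
    subst hd1
    exact not_cov_linear hF (by rw [one_mul]; exact he2) hcF
  have hδ2 : 2 ≤ δ := by
    by_contra h'
    have hd1 : δ = 1 := by omega
    subst hd1
    exact not_cov_linear hG (by rw [one_mul]; exact hen) hcG
  have hNF : NoInv F := hPNI (N + 1) Qb F d hd2 hF hinj hinv
  have hNI : NoInv (it F n) := hNIT (N + 1) Qb F n hinj hn hNF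
  have hNG : NoInv G := by
    apply hPNI (N + 1) Qb G δ hδ2 hG (hcG.injective (Nat.mul_pos hδ (by omega)))
    intro m P Q hP hQ hQ0 hPQ
    by_contra hne
    push Not at hne
    apply hNI
    refine ⟨P, Q, hQ0, hne, ?_⟩
    have h1 : it F n = fun i => h * G i := funext hit
    rw [h1, aeval_mul_of_hom hP, aeval_mul_of_hom hQ, mul_assoc, mul_assoc, hPQ]
  have hlt : deg (it G 1) ^ (N + 1 - 2) < (δ * e ^ n) ^ 1 := by
    rw [it_one, pow_one]
    calc deg G ^ (N + 1 - 2) ≤ δ ^ (N + 1 - 2) := Nat.pow_le_pow_left (deg_of_hom hG) _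
      _ ≤ δ * δ ^ (N - 2) := by
          rw [← pow_succ']
          exact Nat.pow_le_pow_right hδ (by omega)
      _ < δ * e ^ n := Nat.mul_lt_mul_of_pos_left hdeg hδ
  obtain ⟨x, hx, hdense⟩ := thmB hB hCNT hNIT (N + 1) G
    (h * bprod F (b * X 0) n) (δ * e ^ n) 1 (by omega) le_rfl hcG hlt hNG
    (mul_ne_zero h0 (bprod_ne_zero hinj hb10 n))
  obtain ⟨h1, h2⟩ := orbit_reduced hn hF hit hb1 hx hdense
  refine ⟨x, fun m => ?_, fun m hm => ?_, h2⟩
  · have := h1 m
    rw [map_mul] at this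
    exact left_ne_zero_of_mul this
  · have := h1 m
    rw [map_mul, eval_X, hm] at this
    exact right_ne_zero_of_mul this rfl

end Pool.Agent.H18.HIT
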