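import Pool.Agent.H18.HIT.Defs

/-!
# Compositions, iterates and degrees
-/

open MvPolynomial
open Pool.Agent.H12.ZD (pmap v O Res DenseOrbit NoInv)

namespace Pool.Agent.H18.HIT

section ring

variable {N : ℕ} {k : Type} [CommRing k]

theorem comp_X (f : Tup N k) : comp f (fun i => X i) = f := by
  funext i
  exact aeval_X_left_apply (f i)

theorem X_comp (f : Tup N k) : comp (fun i => X i) f = f := by
  funext i
  exact aeval_X f i

theorem aeval_comp (f g : Tup N k) (q : Po N k) : aeval (comp f g) q = aeval g (aeval f q) := by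
  have h : (aeval (comp f g) : Po N k →ₐ[k] Po N k) =
      (aeval g : Po N k →ₐ[k] Po N k).comp (aeval f) := by
    apply algHom_ext
    intro i
    rw [AlgHom.comp_apply, aeval_X, aeval_X]
    rfl
  rw [h]
  rfl

theorem comp_assoc (f g h : Tup N k) : comp (comp f g) h = comp f (comp g h) := by
  funext i
  exact (aeval_comp g h (f i)).symm

theorem eval_aeval (g : Tup N k) (q : Po N k) (x : Fin N → k) :
    eval x (aeval g q) = eval (pmap g x) q := by
  have h : (aeval x : Po N k →ₐ[k] k).comp (aeval g : Po N k →ₐ[k] Po N k) =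
      aeval (pmap g x) := by
    apply algHom_ext
    intro i
    rw [AlgHom.comp_apply, aeval_X, aeval_X]
    rfl
  exact DFunLike.congr_fun h q

theorem pmap_comp (f g : Tup N k) (x : Fin N → k) : pmap (comp f g) x = pmap f (pmap g x) := by
  funext i
  exact eval_aeval g (f i) x

theorem pmap_X (x : Fin N → k) : pmap (fun i => (X i : Po N k)) x = x := by
  funext i
  exact eval_X i

theorem it_zero (f : Tup N k) : it f 0 = fun i => X i := rfl

theorem it_succ (f : Tup N k) (n : ℕ) : it f (n + 1) = comp f (it f n) :=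
  Function.iterate_succ_apply' _ _ _

theorem it_one (f : Tup N k) : it f 1 = f := by rw [it_succ, it_zero, comp_X]

theorem it_add (f : Tup N k) (m n : ℕ) : it f (m + n) = comp (it f m) (it f n) := by
  induction m with
  | zero => rw [Nat.zero_add, it_zero, X_comp]
  | succ m ih => rw [Nat.succ_add, it_succ, ih, it_succ, comp_assoc]

theorem it_succ' (f : Tup N k) (n : ℕ) : it f (n + 1) = comp (it f n) f := by
  rw [it_add, it_one]

theorem it_mul (f : Tup N k) (m n : ℕ) : it (it f m) n = it f (m * n) := by
  induction n with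
  | zero => rfl
  | succ n ih => rw [it_succ, ih, ← it_add, Nat.mul_succ, Nat.add_comm]

theorem pmap_it (f : Tup N k) (n : ℕ) (x : Fin N → k) : pmap (it f n) x = (pmap f)^[n] x := by
  induction n with
  | zero => exact pmap_X x
  | succ n ih => rw [it_succ, pmap_comp, ih, Function.iterate_succ_apply']

theorem pmap_it_iterate (f : Tup N k) (m n : ℕ) (x : Fin N → k) :
    (pmap (it f m))^[n] x = (pmap f)^[m * n] x := by
  rw [← pmap_it, it_mul, pmap_it]

theorem aeval_it_succ (f : Tup N k) (n : ℕ) (q : Po N k) :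
    aeval (it f (n + 1)) q = aeval (it f n) (aeval f q) := by
  rw [it_succ, aeval_comp]

theorem aeval_it_succ' (f : Tup N k) (n : ℕ) (q : Po N k) :
    aeval (it f (n + 1)) q = aeval f (aeval (it f n) q) := by
  rw [it_succ', aeval_comp]

theorem totalDegree_le_deg (f : Tup N k) (i : Fin N) : (f i).totalDegree ≤ deg f :=
  Finset.le_sup (f := fun i => (f i).totalDegree) (Finset.mem_univ i)

theorem deg_le {f : Tup N k} {d : ℕ} (h : ∀ i, (f i).totalDegree ≤ d) : deg f ≤ d :=
  Finset.sup_le fun i _ => h i

theorem totalDegree_aeval_le {σ : Type} (g : Fin N → MvPolynomial σ k) (d : ℕ)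
    (hg : ∀ i, (g i).totalDegree ≤ d) (q : Po N k) :
    (aeval g q).totalDegree ≤ q.totalDegree * d := by
  classical
  rw [aeval_def, eval₂_eq]
  apply (totalDegree_finsetSum _ _).trans
  apply Finset.sup_le
  intro m hm
  calc (algebraMap k (MvPolynomial σ k) (coeff m q) * ∏ i ∈ m.support, g i ^ m i).totalDegree
      ≤ (algebraMap k (MvPolynomial σ k) (coeff m q)).totalDegree +
        (∏ i ∈ m.support, g i ^ m i).totalDegree := totalDegree_mul _ _
    _ = (∏ i ∈ m.support, g i ^ m i).totalDegree := by
        rw [algebraMap_eq, totalDegree_C, zero_add]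
    _ ≤ ∑ i ∈ m.support, (g i ^ m i).totalDegree := totalDegree_finsetProd _ _
    _ ≤ ∑ i ∈ m.support, m i * d := by
        apply Finset.sum_le_sum
        intro i _
        exact (totalDegree_pow _ _).trans (Nat.mul_le_mul_left _ (hg i))
    _ = (∑ i ∈ m.support, m i) * d := (Finset.sum_mul _ _ _).symm
    _ ≤ q.totalDegree * d := Nat.mul_le_mul_right _ (le_totalDegree hm)

theorem deg_comp_le (f g : Tup N k) : deg (comp f g) ≤ deg f * deg g := by
  apply deg_le
  intro i
  exact (totalDegree_aeval_le g (deg g) (totalDegree_le_deg g) (f i)).trans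
    (Nat.mul_le_mul_right _ (totalDegree_le_deg f i))

theorem deg_it_add_le (f : Tup N k) (m n : ℕ) :
    deg (it f (m + n)) ≤ deg (it f m) * deg (it f n) := by
  rw [it_add]
  exact deg_comp_le _ _

theorem deg_it_le [Nontrivial k] (f : Tup N k) {n : ℕ} (hn : 1 ≤ n) :
    deg (it f n) ≤ deg f ^ n := by
  induction n with
  | zero => exact absurd hn (by norm_num)
  | succ n ih =>
    rcases Nat.eq_zero_or_pos n with h0 | h0
    · subst h0
      rw [Nat.zero_add, it_one, pow_one]
    · rw [it_succ, pow_succ, mul_comm]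
      exact (deg_comp_le _ _).trans (Nat.mul_le_mul_left _ (ih h0))

/-- the ideal of an orbit is stable under composition with the map -/
theorem van_aeval {G : Tup N k} {z : Fin N → k} {c : Po N k} (h : c ∈ van G z) :
    aeval G c ∈ van G z := by
  intro n
  rw [eval_aeval, ← Function.iterate_succ_apply' (pmap G)]
  exact h (n + 1)

theorem one_notMem_van [Nontrivial k] (G : Tup N k) (z : Fin N → k) : (1 : Po N k) ∉ van G z := by
  intro h
  have := h 0
  rw [map_one] at this
  exact one_ne_zero this

theorem eval_of_mem_mx {x : Fin N → k} {q : Po N k} (h : q ∈ mx x) : eval x q = 0 := by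
  rw [mx] at h
  induction h using Submodule.span_induction with
  | mem y hy =>
    obtain ⟨i, rfl⟩ := hy
    simp
  | zero => simp
  | add a b _ _ ha hb => rw [map_add, ha, hb, add_zero]
  | smul c a _ ha => rw [smul_eq_mul, map_mul, ha, mul_zero]

theorem sub_C_eval_mem_mx (x : Fin N → k) (q : Po N k) : q - C (eval x q) ∈ mx x := by
  induction q using MvPolynomial.induction_on with
  | C a => simp
  | add a b ha hb =>
    have : a + b - C (eval x (a + b)) = (a - C (eval x a)) + (b - C (eval x b)) := by
      rw [map_add, C_add]; ring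
    rw [this]
    exact Ideal.add_mem _ ha hb
  | mul_X a i ha =>
    have : a * X i - C (eval x (a * X i)) = (a - C (eval x a)) * X i +
        C (eval x a) * (X i - C (x i)) := by
      rw [map_mul, eval_X, C_mul]; ring
    rw [this]
    exact Ideal.add_mem _ (Ideal.mul_mem_right _ _ ha)
      (Ideal.mul_mem_left _ _ (Ideal.subset_span ⟨i, rfl⟩))

theorem mem_mx {x : Fin N → k} {q : Po N k} : q ∈ mx x ↔ eval x q = 0 := by
  refine ⟨eval_of_mem_mx, fun h => ?_⟩
  have := sub_C_eval_mem_mx x q
  rwa [h, map_zero, sub_zero] at this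

/-- `c ∘ G` vanishes at `x` to the order to which `c` vanishes at `G(x)` -/
theorem aeval_mem_mx_pow {G : Tup N k} {x : Fin N → k} {c : Po N k} {l : ℕ}
    (h : c ∈ mx (pmap G x) ^ l) : aeval G c ∈ mx x ^ l := by
  have h1 : (mx (pmap G x)).map (aeval G : Po N k →ₐ[k] Po N k).toRingHom ≤ mx x := by
    rw [Ideal.map_le_iff_le_comap]
    intro q hq
    rw [Ideal.mem_comap]
    change aeval G q ∈ mx x
    rw [mem_mx, eval_aeval]
    exact mem_mx.mp hq
  have h2 := Ideal.mem_map_of_mem (aeval G : Po N k →ₐ[k] Po N k).toRingHom h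
  rw [Ideal.map_pow] at h2
  exact Ideal.pow_right_mono h1 l h2

/-- the map on the quotients induced by `G` -/
theorem aeval_mem_sup {G : Tup N k} {z x : Fin N → k} {c : Po N k} {l : ℕ}
    (h : c ∈ van G z ⊔ mx (pmap G x) ^ l) : aeval G c ∈ van G z ⊔ mx x ^ l := by
  obtain ⟨a, ha, b, hb, rfl⟩ := Submodule.mem_sup.mp h
  rw [map_add]
  exact Submodule.add_mem_sup (van_aeval ha) (aeval_mem_mx_pow hb)

theorem ev2_add (G : Tup N k) (θ : Po N k) (Φ Ψ : Polynomial (Po N k)) :
    ev2 G θ (Φ + Ψ) = ev2 G θ Φ + ev2 G θ Ψ := Polynomial.eval₂_add _ _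

theorem ev2_mul (G : Tup N k) (θ : Po N k) (Φ Ψ : Polynomial (Po N k)) :
    ev2 G θ (Φ * Ψ) = ev2 G θ Φ * ev2 G θ Ψ := Polynomial.eval₂_mul _ _

theorem ev2_C (G : Tup N k) (θ c : Po N k) :
    ev2 G θ (Polynomial.C c) = aeval G c := Polynomial.eval₂_C _ _

theorem ev2_X (G : Tup N k) (θ : Po N k) :
    ev2 G θ Polynomial.X = θ := Polynomial.eval₂_X _ _

/-- evaluation of `Φ(G, θ)` at a point -/
theorem eval_ev2 (G : Tup N k) (θ : Po N k) (Φ : Polynomial (Po N k)) (x : Fin N → k) :
    eval x (ev2 G θ Φ) = evp (pmap G x) (eval x θ) Φ := by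
  induction Φ using Polynomial.induction_on' with
  | add p q hp hq => rw [ev2_add, map_add, hp, hq, evp, evp, evp, Polynomial.map_add,
      Polynomial.eval_add]
  | monomial n a =>
    rw [ev2, evp, Polynomial.eval₂_monomial, Polynomial.map_monomial, Polynomial.eval_monomial,
      map_mul, map_pow]
    congr 1
    exact eval_aeval G a x

end ring

section place

variable {N : ℕ} {p : Nat.Primes}

theorem cO_injective : Function.Injective (cO : (Fin N → O p) → Fin N → Qb) := by
  intro a b h
  funext i
  exact Subtype.ext (congrFun h i)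

theorem eval_cO (q : Po N (O p)) (z : Fin N → O p) :
    eval (cO z) (map (O p).subtype q) = ((eval z q : O p) : Qb) := by
  rw [eval_map]
  exact (eval₂_comp (O p).subtype z q).symm

theorem pmap_cO (f : Tup N (O p)) (z : Fin N → O p) :
    pmap (fun i => map (O p).subtype (f i)) (cO z) = cO (pmap f z) := by
  funext i
  exact eval_cO (f i) z

theorem iterate_cO (f : Tup N (O p)) (z : Fin N → O p) (n : ℕ) :
    (pmap (fun i => map (O p).subtype (f i)))^[n] (cO z) = cO ((pmap f)^[n] z) := by
  induction n with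
  | zero => rfl
  | succ n ih => rw [Function.iterate_succ_apply', ih, pmap_cO, ← Function.iterate_succ_apply' (pmap f)]

theorem flQ_iterate (H : Tup N (O p)) (z : Fin N → O p) (n : ℕ) :
    (pmap (flQ p H))^[n] (cO z) = cO ((pmap (fl p H))^[n] z) := iterate_cO (fl p H) z n

end place

end Pool.Agent.H18.HIT
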