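import Pool.Agent.H18.HIT.Targets

/-!
# An irreducible monic polynomial is separable
-/

open MvPolynomial
open Pool.Agent.H12.ZD (pmap v O Res DenseOrbit NoInv)

namespace Pool.Agent.H18.HIT

theorem pf_SEP : T_SEP := by
  intro A _ _ _ _ Φ hΦ hirr
  have hinj : Function.Injective (algebraMap A (FractionRing A)) := IsFractionRing.injective A _
  have hchar : CharZero (FractionRing A) := charZero_of_injective_algebraMap hinj
  have hirrF : Irreducible (Φ.map (algebraMap A (FractionRing A))) :=
    (hΦ.irreducible_iff_irreducible_map_fraction_map (K := FractionRing A)).mp hirr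
  have hsep : (Φ.map (algebraMap A (FractionRing A))).Separable := hirrF.separable
  obtain ⟨u, w, huw⟩ := hsep
  obtain ⟨b₁, hb₁, hu⟩ := IsLocalization.integerNormalization_spec (nonZeroDivisors A) u
  obtain ⟨b₂, hb₂, hw⟩ := IsLocalization.integerNormalization_spec (nonZeroDivisors A) w
  refine ⟨Polynomial.C b₂ * IsLocalization.integerNormalization (nonZeroDivisors A) u,
    Polynomial.C b₁ * IsLocalization.integerNormalization (nonZeroDivisors A) w, b₁ * b₂,
    mul_ne_zero (nonZeroDivisors.ne_zero hb₁) (nonZeroDivisors.ne_zero hb₂), ?_⟩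
  apply Polynomial.map_injective _ hinj
  rw [Polynomial.derivative_map] at huw
  rw [Polynomial.map_add, Polynomial.map_mul, Polynomial.map_mul, Polynomial.map_mul,
    Polynomial.map_mul, hu, hw, Polynomial.map_C, Polynomial.map_C, Polynomial.map_C, map_mul,
    Algebra.smul_def, Algebra.smul_def, Polynomial.algebraMap_apply, Polynomial.algebraMap_apply,
    Polynomial.C_mul]
  linear_combination (Polynomial.C (algebraMap A (FractionRing A) b₁) *
    Polynomial.C (algebraMap A (FractionRing A) b₂)) * huw

end Pool.Agent.H18.HIT
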