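import Pool.Agent.H18.HIT.Basic

/-!
# Hilbert irreducibility and Zariski dense orbits: the targets
-/

open MvPolynomial
open Pool.Agent.H12.ZD (pmap v O Res DenseOrbit NoInv)

namespace Pool.Agent.H18.HIT

/-! ## Jacobians, algebraic relations, number of preimages -/

/-- an algebraically independent tuple has nonzero jacobian determinant -/
def T_JAC : Prop := ∀ (N : ℕ) (k : Type) [Field k] [CharZero k] (f : Tup N k),
  Function.Injective (aeval f : Po N k →ₐ[k] Po N k) → jac f ≠ 0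

/-- chain rule for the jacobian determinant -/
def T_CHN : Prop := ∀ (N : ℕ) (R : Type) [CommRing R] (f g : Tup N R),
  (∀ i j, pderiv j (comp f g i) = ∑ l, aeval g (pderiv l (f i)) * pderiv j (g l)) ∧
    jac (comp f g) = aeval g (jac f) * jac g

/-- every nonzero polynomial divides a nonzero polynomial in `f` -/
def T_ELM : Prop := ∀ (N : ℕ) (k : Type) [Field k] (f : Tup N k),
  Function.Injective (aeval f : Po N k →ₐ[k] Po N k) → ∀ c : Po N k, c ≠ 0 →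
  ∃ c' : Po N k, c' ≠ 0 ∧ c ∣ aeval f c'

/-- the number of preimages under an iterate -/
def T_CNT : Prop := ∀ (N : ℕ) (k : Type) [Field k] [Infinite k] (f : Tup N k) (e n : ℕ),
  Function.Injective (aeval f : Po N k →ₐ[k] Po N k) → Cov f e → Cov (it f n) (e ^ n)

/-! ## Frobenius points and good residue discs -/

/-- normal forms modulo `x_i ^ Q - f_i` -/
def T_FBA : Prop := ∀ (N : ℕ) (κ : Type) [Field κ] (f : Tup N κ) (Q : ℕ) (b : Po N κ),
  deg f < Q → b.totalDegree < Q → b ∈ Ideal.span (Set.range fun i => X i ^ Q - f i) → b = 0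

/-- dimension of the algebra defined by `x_i ^ Q = f_i` -/
def T_DIA : Prop := ∀ (N : ℕ) (κ : Type) [Field κ] (f : Tup N κ) (Q : ℕ), deg f < Q →
  Module.Finite κ (Po N κ ⧸ Ideal.span (Set.range fun i => X i ^ Q - f i)) ∧
    Module.finrank κ (Po N κ ⧸ Ideal.span (Set.range fun i => X i ^ Q - f i)) ≤ Q ^ N

/-- a tuple with nonzero jacobian determinant is algebraically independent -/
def T_INJ : Prop := ∀ (N : ℕ) (κ : Type) [Field κ] [IsAlgClosed κ] (p : ℕ) [Fact p.Prime]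
  [CharP κ p] (f : Tup N κ), jac f ≠ 0 → Function.Injective (aeval f : Po N κ →ₐ[κ] Po N κ)

/-- a point which is moved by `f` as by Frobenius -/
def T_FRX : Prop := ∀ (N : ℕ) (κ : Type) [Field κ] [IsAlgClosed κ] (p t : ℕ) [Fact p.Prime]
  [CharP κ p] (f : Tup N κ) (b : Po N κ), 1 ≤ t → jac f ≠ 0 → b ≠ 0 → deg f < p ^ t →
  b.totalDegree * deg f ^ N < p ^ t →
  ∃ x : Fin N → κ, (∀ i, eval x (f i) = x i ^ (p ^ t)) ∧ eval x b ≠ 0

/-- a point with good orbit at a large prime -/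
def T_GOD : Prop := ∀ (N : ℕ) (f : Tup N Qb) (b : Po N Qb) (M : ℕ), jac f ≠ 0 → b ≠ 0 →
  ∃ (p : Nat.Primes) (f₀ : Tup N (O p)) (b₀ : Po N (O p)) (a : Fin N → O p), M < (p : ℕ) ∧
    (∀ i, map (O p).subtype (f₀ i) = f i) ∧ map (O p).subtype b₀ = b ∧
    ∀ n, v p ((eval ((pmap f₀)^[n] a) b₀ : O p) : Qb) = 1 ∧
      v p ((eval ((pmap f₀)^[n] a) (jac f₀) : O p) : Qb) = 1

/-! ## The flow -/

/-- Taylor expansion to the second order -/
def T_TAY : Prop := ∀ (N : ℕ) (R : Type) [CommRing R] (q : Po N R) (a : Fin N → R) (t : R),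
  ∃ r : Po N R, aeval (fun i => C (a i) + C t * X i) q =
    C (eval a q) + C t * (∑ i, C (eval a (pderiv i q)) * X i) + C (t ^ 2) * r

/-- an iterate which is the identity modulo `p` in suitable coordinates -/
def T_FLW : Prop := ∀ (N : ℕ) (p : Nat.Primes) (f₀ : Tup N (O p)) (a : Fin N → O p),
  (∀ n, v p ((eval ((pmap f₀)^[n] a) (jac f₀) : O p) : Qb) = 1) →
  ∃ (k m : ℕ) (H : Tup N (O p)), 1 ≤ k ∧ ∀ i,
    aeval (fun j => C ((pmap f₀)^[m] a j) + C (((p : ℕ) : O p) ^ 2) * X j) (it f₀ k i) =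
      C ((pmap f₀)^[m] a i) + C (((p : ℕ) : O p) ^ 2) * fl p H i

/-- continuity in the time -/
def T_INA : Prop := ∀ (N : ℕ) (p : Nat.Primes) (H : Tup N (O p)) (c : Po N (O p))
  (z : Fin N → O p) (n : ℕ), 3 ≤ (p : ℕ) →
  v p (((eval ((pmap (fl p H))^[n] z) c : O p) : Qb) - ((eval z c : O p) : Qb)) ≤ v p (n : Qb)

/-- the coefficients of `((1 + T) ^ M - 1) ^ r` -/
def T_BIN : Prop := ∀ (p : Nat.Primes) (M r j : ℕ), 3 ≤ (p : ℕ) → 1 ≤ M →
  v p ((((((1 + Polynomial.X) ^ M - 1) ^ r : Polynomial ℤ).coeff (r + j) : ℤ) : Qb)) ^ 2 ≤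
    v p (M : Qb) ^ (2 * r) * ((p : ℕ) : ℝ) ^ j

/-- analyticity in the time -/
def T_INB : Prop := ∀ (N : ℕ) (p : Nat.Primes) (H : Tup N (O p)) (c : Po N (O p))
  (z : Fin N → O p) (M : ℕ), 3 ≤ (p : ℕ) → 1 ≤ M →
  (∀ n, eval ((pmap (fl p H))^[M * n] z) c = 0) → ∀ n, eval ((pmap (fl p H))^[n] z) c = 0

/-- cancellation in the ideal of an orbit -/
def T_INC : Prop := ∀ (N : ℕ) (p : Nat.Primes) (H : Tup N (O p)) (z : Fin N → O p)
  (h c : Po N Qb), 3 ≤ (p : ℕ) → h * c ∈ van (flQ p H) (cO z) → eval (cO z) h ≠ 0 →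
  c ∈ van (flQ p H) (cO z)

/-- the ideal of an orbit is prime -/
def T_PRM : Prop := ∀ (N : ℕ) (p : Nat.Primes) (H : Tup N (O p)) (z : Fin N → O p),
  3 ≤ (p : ℕ) → (van (flQ p H) (cO z)).IsPrime

/-! ## Hilbert's irreducibility theorem -/

/-- primitive elements -/
def T_PEL : Prop := ∀ (N : ℕ) (k : Type) [Field k] [CharZero k] (G : Tup N k),
  Function.Injective (aeval G : Po N k →ₐ[k] Po N k) →
  ∃ (θ : Po N k) (Φ : Polynomial (Po N k)) (Δ : Po N k) (R : Fin N → Polynomial (Po N k)),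
    Prim G θ Φ Δ R

/-- an irreducible monic polynomial is separable -/
def T_SEP : Prop := ∀ (A : Type) [CommRing A] [IsDomain A] [IsIntegrallyClosed A] [CharZero A]
  (Φ : Polynomial A), Φ.Monic → Irreducible Φ → ∃ (U V : Polynomial A) (ρ : A), ρ ≠ 0 ∧
    U * Φ + V * Polynomial.derivative Φ = Polynomial.C ρ

/-- Hensel's lemma: all the roots in power series -/
def T_HEN : Prop := ∀ (S : Type) [CommRing S] (E : ℕ) (Ψ : Polynomial (PowerSeries S))
  (α : Fin E → S), Ψ.Monic →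
  Ψ.map PowerSeries.constantCoeff = ∏ a, (Polynomial.X - Polynomial.C (α a)) →
  (∀ a b, a ≠ b → IsUnit (α a - α b)) → ∃ T : Fin E → PowerSeries S,
    (∀ a, PowerSeries.constantCoeff (T a) = α a) ∧
    Ψ = ∏ a, (Polynomial.X - Polynomial.C (T a))

/-- over a domain the monic factors of `∏ (X - T_a)` are partial products -/
def T_MFP : Prop := ∀ (S : Type) [CommRing S] [IsDomain S] (E : ℕ) (T : Fin E → S)
  (A : Polynomial S), A.Monic → A ∣ ∏ a, (Polynomial.X - Polynomial.C (T a)) →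
  ∃ J : Finset (Fin E), A = ∏ a ∈ J, (Polynomial.X - Polynomial.C (T a))

/-- the degrees of the coefficients of a factor -/
def T_DFB : Prop := ∀ (F : Type) [CommRing F] [IsDomain F] (A B : Polynomial (Polynomial F))
  (c : ℕ), A.Monic → B.Monic →
  (∀ j, ((A * B).coeff j).natDegree ≤ c * ((A * B).natDegree - j)) →
  ∀ j, (A.coeff j).natDegree ≤ c * (A.natDegree - j)

/-- Bertini's theorem for lines -/
def T_BER : Prop := ∀ (N : ℕ) (Φ : Polynomial (Po N Qb)) (c : Po N Qb), Φ.Monic →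
  Irreducible Φ → c ≠ 0 → ∃ y b : Fin N → ℤ, Irreducible (Φ.map (lin y b)) ∧ lin y b c ≠ 0

/-- divisibility of a determinant by the Vandermonde product -/
def T_DET : Prop := ∀ (R : Type) [CommRing R] (r : ℕ) (F : Fin r → Polynomial R) (t : Fin r → R),
  (∏ i, ∏ j ∈ Finset.Ioi i, (t j - t i)) ∣
    Matrix.det (Matrix.of fun i j => (F i).eval (t j))

/-- a family of vectors with vanishing determinants is contained in a hyperplane -/
def T_KER : Prop := ∀ (K : Type) [Field K] (ι : Type) (r : ℕ) (w : ι → Fin r → K),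
  (∀ s : Fin r → ι, Matrix.det (Matrix.of fun i j => w (s i) j) = 0) → 1 ≤ r →
  ∃ g : Fin r → K, g ≠ 0 ∧ ∀ i, ∑ j, g j * w i j = 0

/-- bound for the coefficients of the factors of the values of a polynomial -/
def T_ARC : Prop := ∀ Ψ : Polynomial (Polynomial ℤ), Ψ.Monic → ∃ B c : ℕ,
  ∀ (t : ℤ) (A : Polynomial ℤ), A.Monic → A ∣ Ψ.map (Polynomial.evalRingHom t) →
    ∀ j, |A.coeff j| ≤ B * (|t| + 1) ^ c

/-- the roots of `Ψ(t, T)` are close to the values of the power series roots -/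
def T_ROO : Prop := ∀ (p : Nat.Primes) (Ψ : Polynomial (Polynomial ℤ)) (E : ℕ)
  (T : Fin E → PowerSeries (O p)), Ψ.Monic →
  Ψ.map (toPS p) = ∏ a, (Polynomial.X - Polynomial.C (T a)) →
  (∀ a b, a ≠ b → IsUnit (PowerSeries.constantCoeff (T a) - PowerSeries.constantCoeff (T b))) →
  ∀ t : ℤ, v p (t : Qb) < 1 → ∃ ρ : Fin E → Qb,
    (Ψ.map (Polynomial.evalRingHom t)).map (Int.castRingHom Qb) =
      ∏ a, (Polynomial.X - Polynomial.C (ρ a)) ∧
    ∀ a, v p (ρ a) ≤ 1 ∧ ∀ L : ℕ,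
      v p (ρ a - (((PowerSeries.trunc L (T a)).eval ((t : ℤ) : O p) : O p) : Qb)) ≤
        v p (t : Qb) ^ L

/-- the coefficients of products of approximated linear factors are approximated -/
def T_PAP : Prop := ∀ (p : Nat.Primes) (E : ℕ) (T : Fin E → PowerSeries (O p)) (J : Finset (Fin E))
  (t : ℤ) (ρ : Fin E → Qb), v p (t : Qb) < 1 → (∀ a, v p (ρ a) ≤ 1 ∧ ∀ L : ℕ,
      v p (ρ a - (((PowerSeries.trunc L (T a)).eval ((t : ℤ) : O p) : O p) : Qb)) ≤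
        v p (t : Qb) ^ L) → ∀ j L : ℕ,
    v p ((∏ a ∈ J, (Polynomial.X - Polynomial.C (ρ a))).coeff j -
      (((PowerSeries.trunc L ((∏ a ∈ J, (Polynomial.X - Polynomial.C (T a))).coeff j)).eval
        ((t : ℤ) : O p) : O p) : Qb)) ≤ v p (t : Qb) ^ L

/-- the coefficient of a proper factor which is not a polynomial in `t` is algebraic of degree at
least two -/
def T_ALC : Prop := ∀ (p : Nat.Primes) (Ψ : Polynomial (Polynomial ℤ)) (E : ℕ)
  (T : Fin E → PowerSeries (O p)), Ψ.Monic → Irreducible Ψ →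
  Ψ.map (toPS p) = ∏ a, (Polynomial.X - Polynomial.C (T a)) →
  ∀ J : Finset (Fin E), J.Nonempty → J ≠ Finset.univ →
  ∃ (j : ℕ) (Y : Polynomial (Polynomial ℤ)), 2 ≤ Y.natDegree ∧
    Y.eval₂ (toPS p) ((∏ a ∈ J, (Polynomial.X - Polynomial.C (T a))).coeff j) = 0 ∧
    ∀ g₀ g₁ : Polynomial ℤ, ¬ (g₀ = 0 ∧ g₁ = 0) →
      ∑ i ∈ Finset.range (Y.natDegree + 1), Y.coeff i * g₀ ^ i * g₁ ^ (Y.natDegree - i) ≠ 0

/-- the values at the points where a factor has integral coefficients -/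
def T_VAL : Prop := ∀ (p : Nat.Primes) (Y : Polynomial (Polynomial ℤ)) (U : PowerSeries (O p)),
  Y.eval₂ (toPS p) U = 0 → ∀ (t u : ℤ), v p (t : Qb) < 1 →
  (∀ L : ℕ, v p ((u : Qb) - (((PowerSeries.trunc L U).eval ((t : ℤ) : O p) : O p) : Qb)) ≤
    v p (t : Qb) ^ L) → (Y.map (Polynomial.evalRingHom t)).eval u = 0

/-- Hilbert's irreducibility theorem over the integers -/
def T_HIZ : Prop := ∀ Ψ : Polynomial (Polynomial ℤ), Ψ.Monic → Irreducible Ψ → ∀ M : ℕ,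
  ∃ t : ℤ, (M : ℤ) < |t| ∧ Irreducible (Ψ.map (Polynomial.evalRingHom t))

/-- Hilbert's irreducibility theorem over a number field -/
def T_HIK : Prop := ∀ (K : IntermediateField ℚ Qb), FiniteDimensional ℚ K →
  ∀ Ψ : Polynomial (Polynomial Qb), Ψ.Monic → Irreducible Ψ →
  (∀ i j, (Ψ.coeff i).coeff j ∈ K) → ∀ M : ℕ, ∃ t : ℤ, (M : ℤ) < |t| ∧ ∀ ρ ρ' : Qb,
    (Ψ.map (Polynomial.evalRingHom (t : Qb))).eval ρ = 0 →
    (Ψ.map (Polynomial.evalRingHom (t : Qb))).eval ρ' = 0 → ∃ σ : Qb ≃ₐ[K] Qb, σ ρ = ρ'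

/-- points with integer coordinates whose fibre is one Galois orbit -/
def T_HIT : Prop := ∀ (N : ℕ) (G : Tup N Qb) (c : Po N Qb),
  Function.Injective (aeval G : Po N Qb →ₐ[Qb] Po N Qb) → c ≠ 0 →
  ∃ z : Fin N → ℤ, eval (cZ z) c ≠ 0 ∧ ∀ P P' : Fin N → Qb, pmap G P = cZ z →
    pmap G P' = cZ z → ∃ σ : Qb ≃+* Qb, (∀ i, map (σ : Qb →+* Qb) (G i) = G i) ∧
      ∀ i, σ (P i) = P' i

/-! ## The preimage near the orbit -/

/-- a preimage in the closure of the forward orbit -/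
def T_PRE : Prop := ∀ (N : ℕ) (p : Nat.Primes) (H : Tup N (O p)) (z : Fin N → O p)
  (θ : Po N Qb) (Φ : Polynomial (Po N Qb)) (Δ : Po N Qb) (R : Fin N → Polynomial (Po N Qb)),
  3 ≤ (p : ℕ) → Prim (flQ p H) θ Φ Δ R → eval (cO z) Δ ≠ 0 →
  ∃ P : Fin N → O p, pmap (fl p H) P = z ∧ ∀ c ∈ van (flQ p H) (cO z), eval (cO P) c = 0

/-! ## Total invariance -/

/-- an etale map induces a surjection on jets -/
def T_ETL : Prop := ∀ (N : ℕ) (k : Type) [Field k] (G : Tup N k) (x : Fin N → k),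
  eval x (jac G) ≠ 0 → ∀ (l : ℕ) (q : Po N k), ∃ c : Po N k, q - aeval G c ∈ mx x ^ l

/-- finiteness of the jet algebras -/
def T_FIN : Prop := ∀ (N : ℕ) (k : Type) [Field k] (I : Ideal (Po N k)) (l : ℕ) (x : Fin N → k),
  Module.Finite k (Po N k ⧸ (I ⊔ mx x ^ l))

/-- semicontinuity -/
def T_SEM : Prop := ∀ (N : ℕ) (k : Type) [Field k] (I : Ideal (Po N k)) (l : ℕ)
  (x₀ : Fin N → k), ∃ M : Po N k, eval x₀ M ≠ 0 ∧
    ∀ x, eval x M ≠ 0 → dl I l x ≤ dl I l x₀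

/-- `G` induces an isomorphism of the jets of the orbit closure at `z` and at `P` -/
def T_IJP : Prop := ∀ (N : ℕ) (k : Type) [Field k] (G : Tup N k) (z P : Fin N → k),
  pmap G P = z → (∀ n, eval ((pmap G)^[n] z) (jac G) ≠ 0) → eval P (jac G) ≠ 0 →
  (∀ c ∈ van G z, eval P c = 0) → ∀ (l : ℕ) (c : Po N k), aeval G c ∈ van G z ⊔ mx P ^ l →
    c ∈ van G z ⊔ mx z ^ l

/-- transport by an automorphism of the field -/
def T_GLT : Prop := ∀ (N : ℕ) (k : Type) [Field k] (G : Tup N k) (z P P' : Fin N → k)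
  (σ : k ≃+* k), (∀ i, map (σ : k →+* k) (G i) = G i) → (∀ i, σ (z i) = z i) →
  (∀ i, σ (P i) = P' i) →
  (∀ (l : ℕ) (c : Po N k), aeval G c ∈ van G z ⊔ mx P ^ l → c ∈ van G z ⊔ mx z ^ l) →
  (∀ (l : ℕ) (c : Po N k), aeval G c ∈ van G z ⊔ mx P' ^ l → c ∈ van G z ⊔ mx z ^ l) ∧
    ((∀ c ∈ van G z, eval P c = 0) → ∀ c ∈ van G z, eval P' c = 0) ∧
    σ (eval P (jac G)) = eval P' (jac G) ∧ (pmap G P = z → pmap G P' = z)

/-- the Vandermonde argument -/
def T_VDM : Prop := ∀ (N : ℕ) (k : Type) [Field k] (G : Tup N k) (z : Fin N → k) (E : ℕ)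
  (P : Fin E → Fin N → k) (θ : Po N k), (∀ a, pmap G (P a) = z) →
  (∀ a b, eval (P a) θ = eval (P b) θ → a = b) →
  (∀ a (l : ℕ) (q : Po N k), ∃ c : Po N k, q - aeval G c ∈ mx (P a) ^ l) →
  (∀ a (l : ℕ) (c : Po N k), aeval G c ∈ van G z ⊔ mx (P a) ^ l → c ∈ van G z ⊔ mx z ^ l) →
  ∀ c : Fin E → Po N k, (∑ i : Fin E, θ ^ (i : ℕ) * aeval G (c i)) ∈ van G z →
    ∀ i (l : ℕ), c i ∈ van G z ⊔ mx z ^ l

/-- Krull's intersection theorem -/
def T_KRU : Prop := ∀ (N : ℕ) (k : Type) [Field k] (I : Ideal (Po N k)) (z : Fin N → k)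
  (c : Po N k), (∀ l : ℕ, c ∈ I ⊔ mx z ^ l) → ∃ m ∈ mx z, (1 - m) * c ∈ I

/-- distinct points are separated by a polynomial -/
def T_SPT : Prop := ∀ (N : ℕ) (k : Type) [Field k] [Infinite k] (S : Finset (Fin N → k)),
  ∃ θ : Po N k, ∀ x ∈ S, ∀ y ∈ S, eval x θ = eval y θ → x = y

/-- total invariance of the orbit closure -/
def T_STR : Prop := ∀ (N : ℕ) (k : Type) [Field k] [Infinite k] (G : Tup N k)
  (z P : Fin N → k) (S : Finset (Fin N → k)), pmap G P = z →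
  (∀ n, eval ((pmap G)^[n] z) (jac G) ≠ 0) → eval P (jac G) ≠ 0 →
  (∀ c ∈ van G z, eval P c = 0) →
  (∀ h c : Po N k, h * c ∈ van G z → eval z h ≠ 0 → c ∈ van G z) →
  (∀ P' ∈ S, ∃ σ : k ≃+* k, (∀ i, map (σ : k →+* k) (G i) = G i) ∧ (∀ i, σ (z i) = z i) ∧
    ∀ i, σ (P i) = P' i) →
  ∃ θ : Po N k, ∀ c : Fin S.card → Po N k,
    (∑ i : Fin S.card, θ ^ (i : ℕ) * aeval G (c i)) ∈ van G z → ∀ i, c i ∈ van G z

/-! ## Growth -/

/-- dimension of the space of polynomials of total degree at most `t` -/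
def T_RTD : Prop := ∀ (N : ℕ) (k : Type) [Field k] (t : ℕ),
  Module.Finite k (restrictTotalDegree (Fin N) k t) ∧
    Module.finrank k (restrictTotalDegree (Fin N) k t) = (t + N).choose N

/-- growth of the Hilbert function of a proper closed subset -/
def T_HF1 : Prop := ∀ (N : ℕ) (k : Type) [Field k] (I : Ideal (Po N k)) (S : Po N k), S ∈ I →
  S ≠ 0 → ∃ B : ℕ, ∀ t, Hf I t ≤ B * (t + 1) ^ (N - 1)

/-- growth of the Hilbert function in codimension two -/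
def T_HF2 : Prop := ∀ (N : ℕ) (k : Type) [Field k] (I : Ideal (Po N k)) (S S' : Po N k),
  S ∈ I → S' ∈ I → S ≠ 0 → S' ≠ 0 → IsRelPrime S S' → ∃ B : ℕ, ∀ t,
    Hf I t ≤ B * (t + 1) ^ (N - 2)

/-- the Hilbert function and independent elements -/
def T_GR0 : Prop := ∀ (N : ℕ) (k : Type) [Field k] (I : Ideal (Po N k)) (G : Tup N k)
  (θ : Po N k) (E : ℕ), (∀ c ∈ I, aeval G c ∈ I) →
  (∀ c : Fin E → Po N k, (∑ i : Fin E, θ ^ (i : ℕ) * aeval G (c i)) ∈ I → ∀ i, c i ∈ I) →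
  ∀ t, E * Hf I t ≤ Hf I (E * θ.totalDegree + deg G * t)

/-- numerical growth -/
def T_NUM : Prop := ∀ (h : ℕ → ℕ) (E D s B m : ℕ), D ^ m < E → 1 ≤ D →
  (∀ t, E * h t ≤ h (s + D * t)) → (∀ t, h t ≤ B * (t + 1) ^ m) → h 0 = 0

/-- the orbit is dense if the number of independent elements is large -/
def T_GRW : Prop := ∀ (N : ℕ) (k : Type) [Field k] (I : Ideal (Po N k)) (G : Tup N k)
  (θ : Po N k) (E B m : ℕ), (1 : Po N k) ∉ I → 1 ≤ deg G → deg G ^ m < E →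
  (∀ c ∈ I, aeval G c ∈ I) →
  (∀ c : Fin E → Po N k, (∑ i : Fin E, θ ^ (i : ℕ) * aeval G (c i)) ∈ I → ∀ i, c i ∈ I) →
  ¬ ∀ t, Hf I t ≤ B * (t + 1) ^ m

/-! ## The main theorem -/

/-- Theorem A for `n = 1` -/
def T_A : Prop := ∀ (N : ℕ) (f : Tup N Qb) (b : Po N Qb) (e : ℕ), Cov f e →
  deg f ^ (N - 1) < e → b ≠ 0 →
  ∃ x : Fin N → Qb, (∀ n : ℕ, eval ((pmap f)^[n] x) b ≠ 0) ∧ DenseOrbit f x

/-! ## Theorem B -/

/-- an ideal which is not contained in a principal prime contains two relatively prime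
elements -/
def T_AVO : Prop := ∀ (N : ℕ) (k : Type) [Field k] (I : Ideal (Po N k)), I ≠ ⊥ →
  (∀ W : Po N k, Irreducible W → ∃ c ∈ I, ¬ W ∣ c) → ∃ S ∈ I, ∃ S' ∈ I, S ≠ 0 ∧ S' ≠ 0 ∧
    IsRelPrime S S'

/-- integrality of the coordinates outside a hypersurface -/
def T_IGC : Prop := ∀ (N : ℕ) (k : Type) [Field k] (G : Tup N k),
  Function.Injective (aeval G : Po N k →ₐ[k] Po N k) → ∃ c₁ : Po N k, c₁ ≠ 0 ∧
    ∀ i, ∃ (Q : Polynomial (Po N k)) (m : ℕ), Q.leadingCoeff = c₁ ^ m ∧ 1 ≤ Q.natDegree ∧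
      ev2 G (X i) Q = 0

/-- a component of the preimage of a totally invariant hypersurface meets the fibre of `z` -/
def T_LYO : Prop := ∀ (N : ℕ) (k : Type) [Field k] [IsAlgClosed k] (G : Tup N k)
  (c₁ W Y : Po N k) (z : Fin N → k), Function.Injective (aeval G : Po N k →ₐ[k] Po N k) →
  (∀ i, ∃ (Q : Polynomial (Po N k)) (m : ℕ), Q.leadingCoeff = c₁ ^ m ∧ 1 ≤ Q.natDegree ∧
      ev2 G (X i) Q = 0) →
  eval z c₁ ≠ 0 → Irreducible W → eval z W = 0 → Irreducible Y → Y ∣ aeval G W →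
  ¬ Y ∣ aeval G c₁ → ∃ P : Fin N → k, eval P Y = 0 ∧ pmap G P = z

/-- the components of the preimage of a totally invariant hypersurface -/
def T_HYP : Prop := ∀ (N : ℕ) (k : Type) [Field k] [CharZero k] (G : Tup N k) (W Z : Po N k)
  (z : Fin N → k), (∀ n, eval ((pmap G)^[n] z) (jac G) ≠ 0) → Irreducible W →
  (∀ c : Po N k, c ∈ van G z ↔ W ∣ c) → aeval G W = W * Z → ∀ P' : Fin N → k, pmap G P' = z → eval P' (jac G) ≠ 0 →
  eval P' W = 0 → eval P' Z ≠ 0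

/-- finiteness of the totally invariant hypersurfaces -/
def T_CAN : Prop := ∀ (N : ℕ) (k : Type) [Field k] (G : Tup N k) (B₀ : Po N k),
  Function.Injective (aeval G : Po N k →ₐ[k] Po N k) → NoInv G → B₀ ≠ 0 →
  ∃ b : Po N k, b ≠ 0 ∧ ∀ W Z : Po N k, Irreducible W → aeval G W = W * Z →
    (∀ Y : Po N k, Irreducible Y → Y ∣ Z → Y ∣ B₀) → W ∣ b

/-- invariant functions of iterates -/
def T_NIT : Prop := ∀ (N : ℕ) (k : Type) [Field k] [IsAlgClosed k] (f : Tup N k) (m : ℕ),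
  Function.Injective (aeval f : Po N k →ₐ[k] Po N k) → 1 ≤ m → NoInv f → NoInv (it f m)

/-- Theorem B for `n = 1` -/
def T_B : Prop := ∀ (N : ℕ) (f : Tup N Qb) (b : Po N Qb) (e : ℕ), 2 ≤ N → Cov f e →
  deg f ^ (N - 2) < e → NoInv f → b ≠ 0 →
  ∃ x : Fin N → Qb, (∀ n : ℕ, eval ((pmap f)^[n] x) b ≠ 0) ∧ DenseOrbit f x

/-! ## Regular maps -/

/-- polynomial identities describing the fibres -/
def T_CVI : Prop := ∀ (N : ℕ) (k : Type) [Field k] [CharZero k] (G : Tup N k)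
  (θ : Po N k) (Φ : Polynomial (Po N k)) (Δ : Po N k) (R : Fin N → Polynomial (Po N k)),
  Function.Injective (aeval G : Po N k →ₐ[k] Po N k) → Prim G θ Φ Δ R →
  ∃ (ρ : Po N k) (D : ℕ), ρ ≠ 0 ∧ CDat G Φ.natDegree D Φ θ ρ Δ R

/-- the identities give preimages -/
def T_CVC : Prop := ∀ (N : ℕ) (k : Type) [Field k] [IsAlgClosed k] (G : Tup N k) (e D : ℕ)
  (Φ : Polynomial (Po N k)) (θ ρ Δ : Po N k) (R : Fin N → Polynomial (Po N k)),
  CDat G e D Φ θ ρ Δ R → ρ ≠ 0 → Δ ≠ 0 → Cov G e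

/-- the number of preimages is at most the degree -/
def T_CVP : Prop := ∀ (N : ℕ) (k : Type) [Field k] [Infinite k] (G : Tup N k) (e : ℕ)
  (θ : Po N k) (Φ : Polynomial (Po N k)) (Δ : Po N k) (R : Fin N → Polynomial (Po N k)),
  Function.Injective (aeval G : Po N k →ₐ[k] Po N k) → Cov G e → Prim G θ Φ Δ R →
  e ≤ Φ.natDegree

/-- specialization to the algebraic numbers -/
def T_SPD : Prop := ∀ (N : ℕ) (k : Type) [Field k] [IsAlgClosed k] [CharZero k] (f : Tup N k)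
  (b : Po N k) (e D : ℕ) (Φ : Polynomial (Po N k)) (θ ρ Δ : Po N k)
  (R : Fin N → Polynomial (Po N k)), CDat f e D Φ θ ρ Δ R → ρ ≠ 0 → Δ ≠ 0 → b ≠ 0 →
  ∃ (g : Tup N Qb) (b' : Po N Qb), deg g ≤ deg f ∧ b' ≠ 0 ∧
    (∃ (Φ' : Polynomial (Po N Qb)) (θ' ρ' Δ' : Po N Qb) (R' : Fin N → Polynomial (Po N Qb)),
      CDat g e D Φ' θ' ρ' Δ' R' ∧ ρ' ≠ 0 ∧ Δ' ≠ 0) ∧
    ∀ x : Fin N → Qb, (∀ n : ℕ, eval ((pmap g)^[n] x) b' ≠ 0) → DenseOrbit g x →
      ∃ y : Fin N → k, (∀ n : ℕ, eval ((pmap f)^[n] y) b ≠ 0) ∧ DenseOrbit f y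

/-- the number of preimages and the degree of a primitive element -/
def T_CVE : Prop := ∀ (N : ℕ) (k : Type) [Field k] [CharZero k] [IsAlgClosed k] (G : Tup N k)
  (θ : Po N k) (Φ : Polynomial (Po N k)) (Δ : Po N k) (R : Fin N → Polynomial (Po N k)),
  Function.Injective (aeval G : Po N k →ₐ[k] Po N k) → Prim G θ Φ Δ R → Cov G Φ.natDegree

/-- generation over `k[f]` for a map whose top forms have no common zero -/
def T_RGG : Prop := ∀ (N : ℕ) (k : Type) [Field k] [IsAlgClosed k] (f : Tup N k) (d : ℕ),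
  1 ≤ d → (∀ i, (f i).totalDegree ≤ d) →
  (∀ x : Fin N → k, (∀ i, eval x (homogeneousComponent d (f i)) = 0) → x = 0) →
  ∃ M : ℕ, ∀ (t : ℕ) (q : Po N k), q.totalDegree ≤ t →
    ∃ c : (Fin N →₀ ℕ) → Po N k, (∀ m, d * (c m).totalDegree ≤ t) ∧
      q = ∑ m ∈ (Finset.Iic (Finsupp.equivFunOnFinite.symm fun _ : Fin N => M)),
        monomial m 1 * aeval f (c m)

/-- maps without common zero of the top forms are algebraically independent -/
def T_RIN : Prop := ∀ (N : ℕ) (k : Type) [Field k] [IsAlgClosed k] (f : Tup N k) (d : ℕ),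
  1 ≤ d → (∀ i, (f i).totalDegree ≤ d) →
  (∀ x : Fin N → k, (∀ i, eval x (homogeneousComponent d (f i)) = 0) → x = 0) →
  Function.Injective (aeval f : Po N k →ₐ[k] Po N k)

/-- the degree of a regular map -/
def T_REG : Prop := ∀ (N : ℕ) (k : Type) [Field k] [CharZero k] [IsAlgClosed k] (f : Tup N k)
  (d : ℕ), 1 ≤ d → (∀ i, (f i).totalDegree ≤ d) →
  (∀ x : Fin N → k, (∀ i, eval x (homogeneousComponent d (f i)) = 0) → x = 0) →
  Cov f (d ^ N)

/-! ## Projective space -/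

/-- the number of preimages of the homogeneous lift -/
def T_PCV : Prop := ∀ (N : ℕ) (k : Type) [Field k] [IsAlgClosed k] [CharZero k] (F : Tup N k)
  (d e : ℕ), 1 ≤ N → 1 ≤ d → (∀ i, (F i).IsHomogeneous d) → PCov F e → Cov F (d * e)

/-- a homogeneous lift without homogeneous invariant function has no invariant function -/
def T_PNI : Prop := ∀ (N : ℕ) (k : Type) [Field k] (F : Tup N k) (d : ℕ), 2 ≤ d →
  (∀ i, (F i).IsHomogeneous d) → Function.Injective (aeval F : Po N k →ₐ[k] Po N k) →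
  (∀ (m : ℕ) (P Q : Po N k), P.IsHomogeneous m → Q.IsHomogeneous m → Q ≠ 0 →
    aeval F P * Q = aeval F Q * P → ∃ c : k, P = C c * Q) → NoInv F

end Pool.Agent.H18.HIT
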