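import Pool.Agent.H8.HIT.A
import Pool.Agent.H8.HIT.B
import Pool.Agent.H12.HIT.HIK
import Pool.Agent.H12.HIT.HIT
import Pool.Agent.H12.HIT.PEL
import Pool.Agent.H12.HIT.PRE
import Pool.Agent.H16.HIT.IJP
import Pool.Agent.H16.HIT.SEM
import Pool.Agent.H16.HIT.STR
import Pool.Agent.H18.HIT.PN
import Pool.Agent.H20.HIT.HYP
import Pool.Agent.H20.HIT.PCV
import Pool.Agent.H21.HIT.BER
import Pool.Agent.H21.HIT.HIZ
import Pool.Agent.H30.HIT.REG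
import Pool.Agent.H30.HIT.RGG
import Pool.Agent.H30.HIT.RIN
import Pool.Agent.H33.HIT.ARC
import Pool.Agent.H38.HIT.MFP
import Pool.Agent.H38.HIT.NIT
import Pool.Agent.H41.HIT.ALC
import Pool.Agent.H41.HIT.ROO
import Pool.Agent.H45.HIT.LYO
import Pool.Agent.H48.HIT.DET
import Pool.Agent.H48.HIT.FIN
import Pool.Agent.H48.HIT.KER
import Pool.Agent.H55.HIT.PNI
import Pool.Agent.H58.HIT.HEN
import Pool.Agent.H58.HIT.PAP
import Pool.Agent.H60.HIT.INA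
import Pool.Agent.H60.HIT.INB
import Pool.Agent.H18.HIT.SEP
import Pool.Agent.H64.HIT.BIN
import Pool.Agent.H69.HIT.CVI
import Pool.Agent.H69.HIT.SPD
import Pool.Agent.H74.HIT.DFB
import Pool.Agent.H74.HIT.GLT
import Pool.Agent.H75.HIT.INC
import Pool.Agent.H75.HIT.PRM
import Pool.Agent.H77.HIT.CNT
import Pool.Agent.H77.HIT.ELM
import Pool.Agent.H77.HIT.HF2
import Pool.Agent.H77.HIT.IGC
import Pool.Agent.H80.HIT.CAN
import Pool.Agent.H94.HIT.CVC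
import Pool.Agent.H94.HIT.CVP
import Pool.Agent.H94.HIT.KRU
import Pool.Agent.H94.HIT.VDM
import Pool.Agent.H99.HIT.AVO
import Pool.Agent.H99.HIT.ETL
import Pool.Agent.H99.HIT.RTD
import Pool.Agent.H99.HIT.SPT

/-!
# All the rows together
-/

open MvPolynomial
open Pool.Agent.H12.ZD (pmap DenseOrbit NoInv)

namespace Pool.Agent.H18.HIT.All

theorem sep : T_SEP := pf_SEP
theorem ina : T_INA := Pool.Agent.H60.HIT.pf_INA
theorem inb : T_INB := Pool.Agent.H60.HIT.pf_INB Pool.Agent.H64.HIT.pf_BIN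
theorem inc : T_INC := Pool.Agent.H75.HIT.pf_INC ina inb
theorem prm : T_PRM := Pool.Agent.H75.HIT.pf_PRM ina inc
theorem rtd : T_RTD := Pool.Agent.H99.HIT.pf_RTD
theorem hf1 : T_HF1 := Pool.Agent.H8.HIT.pf_HF1
theorem hf2 : T_HF2 := Pool.Agent.H77.HIT.pf_HF2 rtd
theorem elm : T_ELM := Pool.Agent.H77.HIT.pf_ELM
theorem cnt : T_CNT := Pool.Agent.H77.HIT.pf_CNT elm
theorem fin : T_FIN := Pool.Agent.H48.HIT.pf_FIN
theorem sem : T_SEM := Pool.Agent.H16.HIT.pf_SEM fin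
theorem etl : T_ETL := Pool.Agent.H99.HIT.pf_ETL
theorem ijp : T_IJP := Pool.Agent.H16.HIT.pf_IJP etl fin sem
theorem glt : T_GLT := Pool.Agent.H74.HIT.GLT.pf_GLT
theorem str : T_STR := Pool.Agent.H16.HIT.pf_STR etl ijp glt Pool.Agent.H94.HIT.pf_VDM
  Pool.Agent.H94.HIT.pf_KRU Pool.Agent.H99.HIT.pf_SPT
theorem pel : T_PEL := Pool.Agent.H12.HIT.pf_PEL
theorem pre : T_PRE := Pool.Agent.H12.HIT.pf_PRE ina
theorem mfp : T_MFP := Pool.Agent.H38.HIT.pf_MFP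
theorem hen : T_HEN := Pool.Agent.H58.HIT.pf_HEN
theorem alc : T_ALC := Pool.Agent.H41.HIT.pf_ALC mfp
theorem hiz : T_HIZ := Pool.Agent.H21.HIT.pf_HIZ sep hen Pool.Agent.H48.HIT.pf_DET
  Pool.Agent.H48.HIT.pf_KER Pool.Agent.H33.HIT.hit_ARC Pool.Agent.H41.HIT.pf_ROO
  Pool.Agent.H58.HIT.pf_PAP alc Pool.Agent.H58.HIT.pf_VAL mfp
theorem hik : T_HIK := Pool.Agent.H12.HIT.pf_HIK hiz
theorem ber : T_BER := Pool.Agent.H21.HIT.pf_BER sep hen mfp Pool.Agent.H74.HIT.DFB.pf_DFB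
theorem hit : T_HIT := Pool.Agent.H12.HIT.pf_HIT pel ber hik
theorem a : T_A := Pool.Agent.H8.HIT.pf_A inc pel hit pre str
theorem avo : T_AVO := Pool.Agent.H99.HIT.pf_AVO
theorem igc : T_IGC := Pool.Agent.H77.HIT.pf_IGC
theorem lyo : T_LYO := Pool.Agent.H45.HIT.pf_LYO
theorem hyp : T_HYP := Pool.Agent.H20.HIT.pf_HYP
theorem can : T_CAN := Pool.Agent.H80.HIT.pf_CAN
theorem nit : T_NIT := Pool.Agent.H38.HIT.pf_NIT
theorem b : T_B := Pool.Agent.H8.HIT.pf_B inc prm pel hit pre str hf2 avo igc lyo hyp can nit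
theorem cvi : T_CVI := Pool.Agent.H69.HIT.pf_CVI sep
theorem cvc : T_CVC := Pool.Agent.H94.HIT.pf_CVC
theorem cvp : T_CVP := Pool.Agent.H94.HIT.pf_CVP
theorem cve : T_CVE := pf_CVE cvi cvc
theorem spd : T_SPD := Pool.Agent.H69.HIT.pf_SPD Pool.Agent.H48.HIT.pf_KER
theorem rgg : T_RGG := Pool.Agent.H30.HIT.pf_RGG
theorem rin : T_RIN := Pool.Agent.H30.HIT.pf_RIN rgg rtd hf1
theorem reg : T_REG := Pool.Agent.H30.HIT.pf_REG rgg rin pel cve rtd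
theorem pcv : T_PCV := Pool.Agent.H20.HIT.pf_PCV
theorem pni : T_PNI := Pool.Agent.H55.HIT.pf_PNI

end Pool.Agent.H18.HIT.All
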