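import Pool.Agent.H18.HIT.Targets

/-!
# Iterates, coverings and injectivity: the first part of the assembly
-/

open MvPolynomial
open Pool.Agent.H12.ZD (pmap v O Res DenseOrbit NoInv)

namespace Pool.Agent.H18.HIT

section

variable {N : ℕ} {k : Type} [Field k]

/-- a nonzero polynomial over an infinite field has a nonzero value -/
theorem exists_eval_ne_zero [Infinite k] {c : Po N k} (hc : c ≠ 0) : ∃ y : Fin N → k, eval y c ≠ 0 := by
  by_contra h
  push Not at h
  exact hc (MvPolynomial.funext fun y => by rw [h y, map_zero])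

/-- a covering map of positive degree is dominant -/
theorem Cov.injective [Infinite k] {f : Tup N k} {e : ℕ} (h : Cov f e) (he : 1 ≤ e) :
    Function.Injective (aeval f : Po N k →ₐ[k] Po N k) := by
  rw [injective_iff_map_eq_zero]
  intro q hq
  by_contra hq0
  obtain ⟨c, hc, hcov⟩ := h
  obtain ⟨y, hy⟩ := exists_eval_ne_zero (mul_ne_zero hc hq0)
  rw [map_mul] at hy
  obtain ⟨S, hS, hSy⟩ := hcov y (left_ne_zero_of_mul hy)
  have hne : S.Nonempty := by
    rw [← Finset.card_pos, hS]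
    exact he
  obtain ⟨x, hx⟩ := hne
  have h1 : eval x (aeval f q) = 0 := by rw [hq, map_zero]
  rw [eval_aeval, hSy x hx] at h1
  exact right_ne_zero_of_mul hy h1

theorem Cov.mono {f : Tup N k} {e e' : ℕ} (h : Cov f e) (he : e' ≤ e) : Cov f e' := by
  obtain ⟨c, hc, hcov⟩ := h
  refine ⟨c, hc, fun y hy => ?_⟩
  obtain ⟨S, hS, hSy⟩ := hcov y hy
  obtain ⟨T, hT, hTc⟩ := Finset.exists_subset_card_eq (s := S) (n := e') (by rw [hS]; exact he)
  exact ⟨T, hTc, fun x hx => hSy x (hT hx)⟩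

theorem aeval_it_injective {f : Tup N k}
    (h : Function.Injective (aeval f : Po N k →ₐ[k] Po N k)) (n : ℕ) :
    Function.Injective (aeval (it f n) : Po N k →ₐ[k] Po N k) := by
  induction n with
  | zero =>
    intro a b hab
    rw [it_zero, aeval_X_left_apply, aeval_X_left_apply] at hab
    exact hab
  | succ n ih =>
    intro a b hab
    rw [aeval_it_succ, aeval_it_succ] at hab
    exact h (ih hab)

/-- the product of the pull backs of `b` under the iterates -/
noncomputable def bprod (f : Tup N k) (b : Po N k) (n : ℕ) : Po N k :=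
  ∏ i ∈ Finset.range n, aeval (it f i) b

theorem bprod_ne_zero {f : Tup N k} (h : Function.Injective (aeval f : Po N k →ₐ[k] Po N k))
    {b : Po N k} (hb : b ≠ 0) (n : ℕ) : bprod f b n ≠ 0 := by
  rw [bprod, Finset.prod_ne_zero_iff]
  intro i _ h0
  exact hb (aeval_it_injective h i (by rw [h0, map_zero]))

/-- a dense orbit of an iterate is a dense orbit -/
theorem dense_of_it {f : Tup N k} {b : Po N k} {n : ℕ} (hn : 1 ≤ n) {x : Fin N → k}
    (hb : ∀ m, eval ((pmap (it f n))^[m] x) (bprod f b n) ≠ 0) (hx : DenseOrbit (it f n) x) :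
    (∀ m, eval ((pmap f)^[m] x) b ≠ 0) ∧ DenseOrbit f x := by
  constructor
  · intro m
    have h1 := hb (m / n)
    rw [pmap_it_iterate, bprod, map_prod, Finset.prod_ne_zero_iff] at h1
    have h2 := h1 (m % n) (Finset.mem_range.mpr (Nat.mod_lt m (by omega)))
    rw [eval_aeval, pmap_it, ← Function.iterate_add_apply, Nat.mod_add_div] at h2
    exact h2
  · intro q hq
    apply hx
    intro m
    rw [pmap_it_iterate]
    exact hq _

end

/-- Theorem A -/
theorem thmA (hA : T_A) (hCNT : T_CNT) (N : ℕ) (f : Tup N Qb) (b : Po N Qb) (e n : ℕ)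
    (hn : 1 ≤ n) (hf : Cov f e) (hd : deg (it f n) ^ (N - 1) < e ^ n) (hb : b ≠ 0) :
    ∃ x : Fin N → Qb, (∀ m, eval ((pmap f)^[m] x) b ≠ 0) ∧ DenseOrbit f x := by
  have he : 1 ≤ e := by
    rcases Nat.eq_zero_or_pos e with h | h
    · rw [h, zero_pow (by omega)] at hd
      exact absurd hd (Nat.not_lt_zero _)
    · exact h
  have hinj := hf.injective he
  obtain ⟨x, hx, hdense⟩ := hA N (it f n) (bprod f b n) (e ^ n) (hCNT N Qb f e n hinj hf) hd
    (bprod_ne_zero hinj hb n)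
  exact ⟨x, dense_of_it hn hx hdense⟩

/-- Theorem B -/
theorem thmB (hB : T_B) (hCNT : T_CNT) (hNIT : T_NIT) (N : ℕ) (f : Tup N Qb) (b : Po N Qb)
    (e n : ℕ) (hN : 2 ≤ N) (hn : 1 ≤ n) (hf : Cov f e) (hd : deg (it f n) ^ (N - 2) < e ^ n)
    (hinv : NoInv f) (hb : b ≠ 0) :
    ∃ x : Fin N → Qb, (∀ m, eval ((pmap f)^[m] x) b ≠ 0) ∧ DenseOrbit f x := by
  have he : 1 ≤ e := by
    rcases Nat.eq_zero_or_pos e with h | h
    · rw [h, zero_pow (by omega)] at hd
      exact absurd hd (Nat.not_lt_zero _)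
    · exact h
  have hinj := hf.injective he
  obtain ⟨x, hx, hdense⟩ := hB N (it f n) (bprod f b n) (e ^ n) hN (hCNT N Qb f e n hinj hf) hd
    (hNIT N Qb f n hinj hn hinv) (bprod_ne_zero hinj hb n)
  exact ⟨x, dense_of_it hn hx hdense⟩

/-- Theorem A over algebraically closed fields of characteristic zero -/
theorem thmAK (hA : T_A) (hCNT : T_CNT) (hPEL : T_PEL) (hCVI : T_CVI) (hCVP : T_CVP)
    (hCVC : T_CVC) (hSPD : T_SPD) (N : ℕ) (k : Type) [Field k] [IsAlgClosed k] [CharZero k]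
    (f : Tup N k) (b : Po N k) (e n : ℕ)
    (hn : 1 ≤ n) (hf : Cov f e) (hd : deg (it f n) ^ (N - 1) < e ^ n) (hb : b ≠ 0) :
    ∃ x : Fin N → k, (∀ m, eval ((pmap f)^[m] x) b ≠ 0) ∧ DenseOrbit f x := by
  have : Infinite k := IsAlgClosed.instInfinite
  have he : 1 ≤ e := by
    rcases Nat.eq_zero_or_pos e with h | h
    · rw [h, zero_pow (by omega)] at hd
      exact absurd hd (Nat.not_lt_zero _)
    · exact h
  have hinj := hf.injective he
  have hcov := hCNT N k f e n hinj hf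
  have hinj' := aeval_it_injective hinj n
  obtain ⟨θ, Φ, Δ, R, hprim⟩ := hPEL N k (it f n) hinj'
  have hle := hCVP N k (it f n) (e ^ n) θ Φ Δ R hinj' hcov hprim
  obtain ⟨ρ, D, hρ, hdat⟩ := hCVI N k (it f n) θ Φ Δ R hinj' hprim
  obtain ⟨g, b', hdeg, hb', ⟨Φ', θ', ρ', Δ', R', hdat', hρ', hΔ'⟩, hlift⟩ :=
    hSPD N k (it f n) (bprod f b n) Φ.natDegree D Φ θ ρ Δ R hdat hρ hprim.ne
      (bprod_ne_zero hinj hb n)
  have hg : Cov g (e ^ n) := (hCVC N Qb g _ D Φ' θ' ρ' Δ' R' hdat' hρ' hΔ').mono hle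
  obtain ⟨x, hx, hdense⟩ := hA N g b' (e ^ n) hg
    (lt_of_le_of_lt (Nat.pow_le_pow_left hdeg _) hd) hb'
  obtain ⟨y, hy, hydense⟩ := hlift x hx hdense
  exact ⟨y, dense_of_it hn hy hydense⟩

/-- the degree of a primitive element -/
theorem pf_CVE (hCVI : T_CVI) (hCVC : T_CVC) : T_CVE := by
  intro N k _ _ _ G θ Φ Δ R hinj hprim
  obtain ⟨ρ, D, hρ, hdat⟩ := hCVI N k G θ Φ Δ R hinj hprim
  exact hCVC N k G _ D Φ θ ρ Δ R hdat hρ hprim.ne

end Pool.Agent.H18.HIT
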