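import Pool.Agent.H12.ZD.Grow

/-!
# Hilbert irreducibility and Zariski dense orbits: definitions
-/

open MvPolynomial
open Pool.Agent.H12.ZD (pmap v O Res DenseOrbit NoInv)

namespace Pool.Agent.H18.HIT

/-- the algebraic numbers -/
abbrev Qb : Type := AlgebraicClosure ℚ

/-- polynomials in `N` variables -/
abbrev Po (N : ℕ) (k : Type) [CommRing k] : Type := MvPolynomial (Fin N) k

/-- polynomial self-maps of affine `N`-space -/
abbrev Tup (N : ℕ) (k : Type) [CommRing k] : Type := Fin N → MvPolynomial (Fin N) k

section ring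

variable {N : ℕ} {k : Type} [CommRing k]

/-- composition `f ∘ g` -/
noncomputable def comp (f g : Tup N k) : Tup N k := fun i => aeval g (f i)

/-- the `n`-th iterate of `f` -/
noncomputable def it (f : Tup N k) (n : ℕ) : Tup N k := (comp f)^[n] (fun i => X i)

/-- the degree of a tuple -/
noncomputable def deg (f : Tup N k) : ℕ := Finset.univ.sup fun i => (f i).totalDegree

/-- the jacobian determinant -/
noncomputable def jac (f : Tup N k) : Po N k := Matrix.det (Matrix.of fun i j => pderiv j (f i))

/-- the points outside some hypersurface have at least `e` preimages -/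
def Cov (f : Tup N k) (e : ℕ) : Prop := ∃ c : Po N k, c ≠ 0 ∧ ∀ y : Fin N → k, eval y c ≠ 0 →
  ∃ S : Finset (Fin N → k), S.card = e ∧ ∀ x ∈ S, pmap f x = y

/-- the maximal ideal of a point -/
noncomputable def mx (x : Fin N → k) : Ideal (Po N k) :=
  Ideal.span (Set.range fun i => X i - C (x i))

/-- the ideal of the polynomials which vanish on the forward orbit of `z` -/
noncomputable def van (f : Tup N k) (z : Fin N → k) : Ideal (Po N k) where
  carrier := {c | ∀ n : ℕ, eval ((pmap f)^[n] z) c = 0}
  add_mem' := by
    intro a b ha hb n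
    rw [map_add, ha n, hb n, add_zero]
  zero_mem' := by
    intro n
    exact map_zero _
  smul_mem' := by
    intro c a ha n
    rw [smul_eq_mul, map_mul, ha n, mul_zero]

theorem mem_van {f : Tup N k} {z : Fin N → k} {c : Po N k} :
    c ∈ van f z ↔ ∀ n : ℕ, eval ((pmap f)^[n] z) c = 0 := Iff.rfl

/-- the value `Φ(G(x), θ(x))` of a polynomial `Φ` in `k[y][T]` -/
noncomputable def ev2 (G : Tup N k) (θ : Po N k) (Φ : Polynomial (Po N k)) : Po N k :=
  Φ.eval₂ (aeval G : Po N k →ₐ[k] Po N k).toRingHom θ

/-- the value `Φ(z, τ)` of a polynomial `Φ` in `k[y][T]` at a point -/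
noncomputable def evp (z : Fin N → k) (τ : k) (Φ : Polynomial (Po N k)) : k :=
  (Φ.map (eval z)).eval τ

/-- a primitive element of `k(x)` over `k(G)` with its minimal polynomial, and the coordinates
as functions of it -/
structure Prim (G : Tup N k) (θ : Po N k) (Φ : Polynomial (Po N k)) (Δ : Po N k)
    (R : Fin N → Polynomial (Po N k)) : Prop where
  monic : Φ.Monic
  irr : Irreducible Φ
  root : ev2 G θ Φ = 0
  ne : Δ ≠ 0
  coord : ∀ i, aeval G Δ * X i = ev2 G θ (R i)

/-- the homogenization `δ ^ D * q(R / δ)` of a polynomial `q` of total degree at most `D` -/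
noncomputable def hev {B : Type} [CommRing B] [Algebra k B] (R : Fin N → B) (δ : B) (D : ℕ)
    (q : Po N k) : B :=
  ∑ m ∈ q.support, algebraMap k B (coeff m q) * δ ^ (D - m.sum fun _ e => e) * ∏ i, R i ^ m i

/-- polynomial identities which describe the fibres of `G` by the roots of `Φ` -/
structure CDat (G : Tup N k) (e D : ℕ) (Φ : Polynomial (Po N k)) (θ ρ Δ : Po N k)
    (R : Fin N → Polynomial (Po N k)) : Prop where
  monic : Φ.Monic
  nat : Φ.natDegree = e
  degG : deg G ≤ D
  degθ : θ.totalDegree ≤ D
  sep : ∃ U V : Polynomial (Po N k), U * Φ + V * Polynomial.derivative Φ = Polynomial.C ρ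
  inv : ∀ i, Φ ∣ hev R (Polynomial.C Δ) D (G i) - Polynomial.C (Δ ^ D * X i)
  prim : Φ ∣ hev R (Polynomial.C Δ) D θ - Polynomial.C (Δ ^ D) * Polynomial.X

/-- the points of projective space outside some hypersurface have at least `e` preimages under
the map given by the homogeneous tuple `F` -/
def PCov (F : Tup N k) (e : ℕ) : Prop := ∃ c : Po N k, c ≠ 0 ∧ ∀ y : Fin N → k, eval y c ≠ 0 →
  ∃ S : Finset (Fin N → k), S.card = e ∧ (∀ x ∈ S, pmap F x = y) ∧
    ∀ x ∈ S, ∀ x' ∈ S, ∀ t : k, (∀ i, x' i = t * x i) → x' = x

/-- change of the coefficients -/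
noncomputable def mp {R S : Type} [CommRing R] [CommRing S] (ψ : R →+* S) {N : ℕ} (f : Tup N R) :
    Tup N S := fun i => map ψ (f i)

end ring

section place

variable {N : ℕ} (p : Nat.Primes)

/-- a map which is the identity modulo `p` -/
noncomputable def fl (H : Tup N (O p)) : Tup N (O p) := fun i => X i + C ((p : ℕ) : O p) * H i

/-- the same map over the algebraic numbers -/
noncomputable def flQ (H : Tup N (O p)) : Tup N Qb := fun i => map (O p).subtype (fl p H i)

/-- an integral point as a point over the algebraic numbers -/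
noncomputable def cO {p : Nat.Primes} (z : Fin N → O p) : Fin N → Qb := fun i => (z i : Qb)

/-- polynomials with integer coefficients as power series over the valuation ring -/
noncomputable def toPS : Polynomial ℤ →+* PowerSeries (O p) :=
  (Polynomial.coeToPowerSeries.ringHom).comp (Polynomial.mapRingHom (Int.castRingHom (O p)))

end place

/-- a point with integer coordinates -/
noncomputable def cZ {N : ℕ} (z : Fin N → ℤ) : Fin N → Qb := fun i => (z i : Qb)

/-- restriction to the line `y + t b` -/
noncomputable def lin {N : ℕ} (y b : Fin N → ℤ) : Po N Qb →+* Polynomial Qb :=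
  (aeval (fun i => Polynomial.C ((y i : Qb)) + Polynomial.C ((b i : Qb)) * Polynomial.X) :
    Po N Qb →ₐ[Qb] Polynomial Qb).toRingHom

/-- the Hilbert function of `Po N k / I`: the dimension of the image of the polynomials of total
degree at most `t` -/
noncomputable def Hf {N : ℕ} {k : Type} [Field k] (I : Ideal (Po N k)) (t : ℕ) : ℕ :=
  Module.finrank k (Submodule.map (Ideal.Quotient.mkₐ k I).toLinearMap
    (restrictTotalDegree (Fin N) k t))

/-- the dimension of `Po N k / (I + mx x ^ l)` -/
noncomputable def dl {N : ℕ} {k : Type} [Field k] (I : Ideal (Po N k)) (l : ℕ)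
    (x : Fin N → k) : ℕ := Module.finrank k (Po N k ⧸ (I ⊔ mx x ^ l))

end Pool.Agent.H18.HIT
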